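import Mathlib
import Pool.Agent.Lib.MP_f02ea4_nt.Mg.G020

/-! Elimination with bounded loss applied to an odd perfect number; the primes in `(y, z]` are kept as
logarithms, those above `z` are eliminated. -/

set_option autoImplicit false

namespace Pool.Agent.Lib.MP_f02ea4_nt.AG

open Finset Real
open Pool.Agent.Lib.MP_f02ea4_nt.Sm
open Pool.Agent.Lib.MP_f02ea4_nt.Ml (Lg s_prime s_ne_two s_sg s_aa_nonneg t_two HH process basics)
open Pool.Agent.Lib.MP_f02ea4_nt.AE

/-- the kept primes -/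
abbrev Md (N y z : ℕ) : Finset ℕ := N.primeFactors.filter (fun p => y < p ∧ p ≤ z)

open Classical in
/-- the hypothesis `hEL` of the level argument -/
theorem el_apply3 (N y z : ℕ) (T : ℝ) (hT : 0 ≤ T) (hodd : Odd N) (hN : Nat.Perfect N) (hy : 3 ≤ y)
    (hyz : y ≤ z) (g t h E Y Cm Bb V : ℕ) (ρ Ks l : ℝ) (hV : V = Nat.log 2 N + 1)
    (ht : t = 2 * ((Lg N z).card + 1)) (hh : h = t * (g + 1) + (Md N y z).card) (hE1 : 1 ≤ E)
    (hzE : log z ≤ E) (hY1 : 1 ≤ Y)
    (hKs1 : 1 ≤ Ks) (hCm : 2 * (t : ℝ) ^ 2 * DD h E Y * ρ ≤ Cm)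
    (hBb : 3 * (t * Cm * V * E : ℝ) + 1 ≤ Bb)
    (hY : log (Bb : ℝ) + log (1 + (t * Cm * (V * E) + V * E)) ≤ Y)
    (hKs : 3 * (t * Cm * DD h E Y) < Ks)
    (hl : ((Vs N y).card + 1) * T + 2 * log y + log V + 2 + E ≤ l) :
    ∀ (U B : Finset ℕ) (Z w : ℝ), U ⊆ Vs N y → B ⊆ U → B.card = t →
      (∀ q ∈ B, (U.filter (fun r => hv N T q r)).card ≤ g) →
      (∀ q ∈ B, ∀ r ∈ B, q ≠ r → ¬ hv N T q r) → 1 ≤ Z →
      (∀ q ∈ B, Z ≤ (nn N q : ℝ) * log q ∧ (nn N q : ℝ) * log q ≤ ρ * Z) →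
      (∀ q ∈ B, l + ∑ r ∈ Vs N y \ U, aa N q r ≤ w) → Z < Ks * w := by
  intro U B Z w hUV hBU hBt hdeg hind hZ1 hZ hw
  have hyR : (3 : ℝ) ≤ y := by exact_mod_cast hy
  have hlogy : 1 ≤ log (y : ℝ) := d15_log3 hyR
  have hVpos : 1 ≤ V := by omega
  have hV1 : (1 : ℝ) ≤ V := by exact_mod_cast hVpos
  have hlogV : 0 ≤ log (V : ℝ) := Real.log_nonneg hV1
  have hE1R : (1 : ℝ) ≤ E := by exact_mod_cast hE1
  have hyE : log (y : ℝ) ≤ E :=
    (Real.log_le_log (by linarith) (by exact_mod_cast hyz)).trans hzE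
  have hh1 : 1 ≤ h := by
    rw [hh, ht]
    nlinarith [Nat.zero_le (Lg N z).card, Nat.zero_le g, Nat.zero_le (Md N y z).card]
  have hBne : B.Nonempty := by
    rw [← Finset.card_pos, hBt, ht]
    omega
  obtain ⟨q0, hq0⟩ := hBne
  have hcard0 : (0 : ℝ) ≤ ((Vs N y).card : ℝ) * T :=
    mul_nonneg (Nat.cast_nonneg _) hT
  have hsum0 : ∀ q, 0 ≤ ∑ r ∈ Vs N y \ U, aa N q r := fun q =>
    Finset.sum_nonneg fun r _ => s_aa_nonneg N q r
  have hlw : l ≤ w := by
    have h1 := hw q0 hq0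
    have h2 := hsum0 q0
    linarith
  have hEw : (E : ℝ) ≤ w := by nlinarith
  have hw0 : 0 < w := by linarith
  have hBV : ∀ q ∈ B, q ∈ Vs N y := fun q hq => hUV (hBU hq)
  have hmem : ∀ q ∈ B, q ∈ N.primeFactors ∧ q ≤ y := fun q hq => Finset.mem_filter.1 (hBV q hq)
  have hzV : ∀ q ∈ Vs N y, (nn N q : ℝ) * log q ≤ V * E := by
    intro q hq
    have hqm := Finset.mem_filter.1 hq
    have h1 : (nn N q : ℝ) ≤ V := by
      rw [hV]
      exact_mod_cast nn_le_log N q
    have h2 : log (q : ℝ) ≤ E := by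
      refine le_trans ?_ hyE
      exact Real.log_le_log (by exact_mod_cast (s_prime hqm.1).pos) (by exact_mod_cast hqm.2)
    exact mul_le_mul h1 h2 (log_natCast_nonneg q) (by positivity)
  have hZVE : Z ≤ V * E := (hZ q0 hq0).1.trans (hzV q0 (hBV q0 hq0))
  have ht1 : (1 : ℝ) ≤ t := by
    have : 1 ≤ t := by omega
    exact_mod_cast this
  by_cases hwV : (V : ℝ) * E ≤ w
  · -- trivial case
    have hD : 100 ≤ DD h E Y := DD_ge hh1 hE1 hY1
    have hρ1 : 1 ≤ ρ := by
      have h1 := (hZ q0 hq0).1.trans (hZ q0 hq0).2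
      by_contra hlt
      rw [not_le] at hlt
      nlinarith
    have hCm1 : (1 : ℝ) ≤ Cm := by
      refine le_trans ?_ hCm
      have h1 : (1 : ℝ) ≤ (t : ℝ) ^ 2 := by nlinarith
      have h2 : (1 : ℝ) ≤ 2 * (t : ℝ) ^ 2 * DD h E Y := by nlinarith
      nlinarith
    have h3 : (1 : ℝ) < Ks := by
      have h4 : (1 : ℝ) ≤ t * Cm := by nlinarith
      have h5 : (1 : ℝ) ≤ t * Cm * DD h E Y := by nlinarith
      linarith
    have h6 : Z ≤ w := hZVE.trans hwV
    nlinarith
  rw [not_le] at hwV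
  set H' : Finset ℕ := B ∪ B.biUnion (fun q => U.filter (fun r => hv N T q r)) with hH'def
  have hH'V : ∀ r ∈ H', r ∈ Vs N y := by
    intro r hr
    rw [hH'def, Finset.mem_union, Finset.mem_biUnion] at hr
    rcases hr with hr | ⟨q, _, hr⟩
    · exact hBV r hr
    · exact hUV (Finset.mem_filter.1 hr).1
  have hH'card : H'.card ≤ t * (g + 1) := by
    have h1 := Finset.card_union_le B (B.biUnion (fun q => U.filter (fun r => hv N T q r)))
    have h2 := Finset.card_biUnion_le_card_mul B (fun q => U.filter (fun r => hv N T q r)) g hdeg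
    rw [hBt] at h2
    have h3 : t * (g + 1) = t + t * g := by ring
    rw [h3]
    rw [← hH'def] at h1
    omega
  set H : Finset ℕ := H' ∪ Md N y z with hHdef
  have hHz : ∀ r ∈ H, r ∈ N.primeFactors ∧ r ≤ z := by
    intro r hr
    rw [hHdef, Finset.mem_union] at hr
    rcases hr with hr | hr
    · have h1 := Finset.mem_filter.1 (hH'V r hr)
      exact ⟨h1.1, h1.2.trans hyz⟩
    · have h1 := Finset.mem_filter.1 hr
      exact ⟨h1.1, h1.2.2⟩
  have hHcard : H.card ≤ h := by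
    have h1 := Finset.card_union_le H' (Md N y z)
    rw [← hHdef] at h1
    rw [hh]
    omega
  have hsub : ∀ S : Finset ℕ, S \ (H ∪ Lg N z) ⊆ S \ (H' ∪ Lg N y) := by
    intro S r hr
    rw [Finset.mem_sdiff, Finset.mem_union, not_or] at hr ⊢
    obtain ⟨h1, h2, h3⟩ := hr
    refine ⟨h1, fun h => h2 (Finset.mem_union_left _ h), fun h => ?_⟩
    have h4 := Finset.mem_filter.1 h
    rcases Nat.lt_or_ge z r with h5 | h5
    · exact h3 (Finset.mem_filter.2 ⟨h4.1, h5⟩)
    · exact h2 (Finset.mem_union_right _ (Finset.mem_filter.2 ⟨h4.1, h4.2, h5⟩))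
  have key := elim2 (ι := B) (fun q => q.1) (fun q => nn N q.1)
    (fun q => s_prime (hmem q.1 q.2).1) Subtype.val_injective (fun q => by unfold nn; omega)
    (Lg N z) H (fun r hr => s_prime (hHz r hr).1)
    (fun q => Finset.mem_union_left _ (Finset.mem_union_left _ q.2))
    (fun Q hQ => s_prime (Finset.mem_filter.1 hQ).1) t h
    (by rw [Fintype.card_coe]; exact hBt) (by omega) hHcard w Z ρ E Y V Cm Bb
    (fun q => by
      refine (Finset.sum_le_sum_of_subset_of_nonneg (hsub _) ?_).trans ?_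
      · intro r hr _
        exact mul_nonneg (Nat.cast_nonneg _) (log_natCast_nonneg r)
      refine (light_part N y q.1 T hodd hN (hBV q.1 q.2) U H' hT ?_).trans ?_
      · intro r hr
        exact Finset.mem_union_right _ (Finset.mem_biUnion.2 ⟨q.1, q.2, hr⟩)
      · have h1 := hw q.1 q.2
        have h2 : log (nn N q.1 : ℝ) ≤ log (V : ℝ) := by
          apply Real.log_le_log
          · exact_mod_cast (by unfold nn; omega : 0 < nn N q.1)
          · rw [hV]
            exact_mod_cast nn_le_log N q.1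
        have h3 := Real.log_two_lt_d9
        nlinarith)
    (fun q r hqr => by
      have hne : r.1 ≠ q.1 := fun h => hqr (Subtype.ext h.symm)
      have hrp := s_prime (hmem r.1 r.2).1
      have hr1 : r.1 - 1 ≠ 0 := by have := hrp.two_le; omega
      have hS0 : Sq N r.1 ≠ 0 := c1_ne_zero N r.1 hrp
      have h1 : (((r.1 ^ nn N r.1 - 1).factorization q.1 : ℕ) : ℝ) * log (q.1 : ℝ) =
          ((r.1 - 1).factorization q.1 : ℝ) * log (q.1 : ℝ) + aa N r.1 q.1 := by
        rw [s_sg (hmem r.1 r.2).1, Nat.factorization_mul hr1 hS0]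
        simp only [Finsupp.coe_add, Pi.add_apply, Nat.cast_add, aa]
        ring
      have h2 := pred_sum_le y r.1 hrp (hmem r.1 r.2).2 {q.1}
      rw [Finset.sum_singleton] at h2
      have h3 := aa_light N r.1 q.1 T hodd hN (hmem r.1 r.2).1 (hmem q.1 q.2).1
        (hind r.1 r.2 q.1 q.2 hne)
      have h4 := fac_sum_le (nn N r.1) {q.1}
      rw [Finset.sum_singleton] at h4
      have h5 : log (nn N r.1 : ℝ) ≤ log (V : ℝ) := by
        apply Real.log_le_log
        · exact_mod_cast (by unfold nn; omega : 0 < nn N r.1)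
        · rw [hV]
          exact_mod_cast nn_le_log N r.1
      change (((r.1 ^ nn N r.1 - 1).factorization q.1 : ℕ) : ℝ) * log (q.1 : ℝ) ≤ w
      rw [h1]
      nlinarith)
    (by linarith) (fun q => (hZ q.1 q.2).1) (fun q => (hZ q.1 q.2).2) hE1
    (fun r hr => by
      have hrm := hHz r hr
      refine le_trans ?_ hzE
      exact Real.log_le_log (by exact_mod_cast (s_prime hrm.1).pos) (by exact_mod_cast hrm.2))
    hEw (fun q => by rw [hV]; exact nn_le_log N q.1) hY1 hCm hBb (by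
      refine le_trans ?_ hY
      have h1 : 1 + (t * Cm * w + Z) ≤ 1 + (t * Cm * ((V : ℝ) * E) + V * E) := by
        have h2 : (t : ℝ) * Cm * w ≤ t * Cm * (V * E) :=
          mul_le_mul_of_nonneg_left hwV.le (by positivity)
        linarith
      have h2 : 0 < 1 + (t * Cm * w + Z) := by
        have : (0 : ℝ) ≤ t * Cm * w := by positivity
        linarith
      have h3 := Real.log_le_log h2 h1
      linarith)
  refine key.trans_lt ?_
  have h1 : 3 * (t * Cm * w * DD h E Y) = 3 * (t * Cm * DD h E Y) * w := by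
    ring
  rw [h1]
  exact mul_lt_mul_of_pos_right hKs hw0

end Pool.Agent.Lib.MP_f02ea4_nt.AG
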