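import Mathlib

/-! The last numerical step (MP_f02ea4, radical bound). -/

set_option autoImplicit false

namespace Pool.Agent.Lib.MP_f02ea4_nt.AG

open Finset Real

/-- LAST STEP: `X ^ (3 / 4) ≤ 2 ^ (2 (j + m)) * 2 ^ (log X / 8) * exp Φ * (k + 1) ^ 2 * C λ`. -/
theorem num_final : ∃ C : ℕ, 1 ≤ C ∧ ∀ (X lz Φ : ℝ) (y j m k V E u : ℕ), 1 ≤ X → 2 ≤ y →
    log y ≤ lz → 1 ≤ V → (V : ℝ) ≤ 3 * X → (k : ℝ) ≤ X → E = ⌈lz⌉₊ + 1 → 0 ≤ Φ →
    (u : ℝ) ≤ log X / 8 →
    X ≤ 2 ^ (2 * (j + m) + u) * (k * log y + exp Φ *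
      (k * (((k : ℝ) + 1) * (X ^ (1 / 4 : ℝ) * log y) + 2 * log y + log V + 2 + E)) + log (4 * X)) →
    log X ≤ 3 * (j + m) + 2 * Φ + 4 * log (k + 1) + 2 * log (C * (1 + log X + lz)) := by
  refine ⟨13, by norm_num, ?_⟩
  intro X lz Φ y j m k V E u hX hy hyz hV1 hV hk hE hΦ hu hmain
  have hX0 : 0 < X := by linarith
  have hy2 : (2 : ℝ) ≤ y := by exact_mod_cast hy
  have hlogy0 : 0 ≤ log (y : ℝ) := log_nonneg (by linarith)
  have hlog2 : (0.6931 : ℝ) < log 2 := by have := Real.log_two_gt_d9; linarith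
  have hlog2' : log 2 < (0.6932 : ℝ) := by have := Real.log_two_lt_d9; linarith
  have hlz : 0.6931 < lz := by
    have h1 : log 2 ≤ log (y : ℝ) := log_le_log (by norm_num) hy2
    linarith
  have hlogX : 0 ≤ log X := log_nonneg hX
  set Λ : ℝ := 1 + log X + lz with hΛ
  have hΛ1 : 1.69 ≤ Λ := by linarith
  have hk0 : (0 : ℝ) ≤ k := Nat.cast_nonneg _
  set K : ℝ := (k : ℝ) + 1 with hK
  have hK1 : 1 ≤ K := by linarith
  have hK2 : 1 ≤ K ^ 2 := one_le_pow₀ hK1
  have hkK : (k : ℝ) ≤ K ^ 2 := by nlinarith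
  set R : ℝ := X ^ (1 / 4 : ℝ) with hR
  have hR1 : 1 ≤ R := Real.one_le_rpow hX (by norm_num)
  have hexp : 1 ≤ exp Φ := Real.one_le_exp hΦ
  have hlogV : log (V : ℝ) ≤ log X + 1.4 := by
    have hV0 : (0 : ℝ) < V := by exact_mod_cast hV1
    have h1 : log (V : ℝ) ≤ log (3 * X) := log_le_log hV0 hV
    have h2 : log (3 * X) ≤ log (4 * X) := log_le_log (by linarith) (by linarith)
    have h3 : log (4 * X) = 2 * log 2 + log X := by
      rw [log_mul (by norm_num) hX0.ne', show (4 : ℝ) = 2 ^ 2 by norm_num, log_pow]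
      push_cast
      ring
    linarith
  have hlog4X : log (4 * X) ≤ log X + 1.4 := by
    have h3 : log (4 * X) = 2 * log 2 + log X := by
      rw [log_mul (by norm_num) hX0.ne', show (4 : ℝ) = 2 ^ 2 by norm_num, log_pow]
      push_cast
      ring
    linarith
  have hE' : (E : ℝ) ≤ lz + 2 := by
    rw [hE]
    have h1 : ((⌈lz⌉₊ : ℕ) : ℝ) < lz + 1 := Nat.ceil_lt_add_one (by linarith)
    push_cast
    linarith
  have hlogy : log (y : ℝ) ≤ Λ := by linarith
  -- the bracket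
  have hbr : (k * log y + exp Φ *
      (k * (((k : ℝ) + 1) * (X ^ (1 / 4 : ℝ) * log y) + 2 * log y + log V + 2 + E)) + log (4 * X))
      ≤ exp Φ * (K ^ 2 * (R * (13 * Λ))) := by
    have hRΛ : Λ ≤ R * Λ := by nlinarith
    have hRΛ0 : 0 ≤ R * Λ := by linarith
    have e1 : (k : ℝ) * log y ≤ K ^ 2 * (R * Λ) := by
      calc (k : ℝ) * log y ≤ K ^ 2 * Λ := mul_le_mul hkK hlogy hlogy0 (by positivity)
        _ ≤ _ := mul_le_mul_of_nonneg_left hRΛ (by positivity)
    have e2 : (k : ℝ) * (((k : ℝ) + 1) * (R * log y)) ≤ K ^ 2 * (R * Λ) := by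
      have h1 : (k : ℝ) * K ≤ K ^ 2 := by nlinarith
      calc (k : ℝ) * (((k : ℝ) + 1) * (R * log y)) = (k * K) * (R * log y) := by rw [hK]; ring
        _ ≤ K ^ 2 * (R * Λ) := by
          refine mul_le_mul h1 (mul_le_mul_of_nonneg_left hlogy (by linarith)) ?_ (by positivity)
          exact mul_nonneg (by linarith) hlogy0
    have e3 : 2 * log (y : ℝ) + log V + 2 + E ≤ 7 * (R * Λ) := by
      have : 2 * log (y : ℝ) + log V + 2 + E ≤ 7 * Λ := by linarith
      linarith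
    have e3' : (k : ℝ) * (2 * log (y : ℝ) + log V + 2 + E) ≤ K ^ 2 * (7 * (R * Λ)) := by
      calc (k : ℝ) * (2 * log (y : ℝ) + log V + 2 + E) ≤ k * (7 * (R * Λ)) :=
            mul_le_mul_of_nonneg_left e3 hk0
        _ ≤ _ := mul_le_mul_of_nonneg_right hkK (by linarith)
    have e4 : log (4 * X) ≤ K ^ 2 * (2 * (R * Λ)) := by
      have h1 : log (4 * X) ≤ 2 * (R * Λ) := by linarith
      have h2 : 2 * (R * Λ) ≤ K ^ 2 * (2 * (R * Λ)) :=
        le_mul_of_one_le_left (by linarith) hK2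
      linarith
    have hb1 : 0 ≤ K ^ 2 * (R * Λ) := by positivity
    calc (k * log y + exp Φ *
      (k * (((k : ℝ) + 1) * (X ^ (1 / 4 : ℝ) * log y) + 2 * log y + log V + 2 + E)) + log (4 * X))
        = k * log y + exp Φ * (k * (((k : ℝ) + 1) * (R * log y))
            + k * (2 * log y + log V + 2 + E)) + log (4 * X) := by rw [hR]; ring
      _ ≤ K ^ 2 * (R * Λ) + exp Φ * (K ^ 2 * (R * Λ) + K ^ 2 * (7 * (R * Λ)))
            + K ^ 2 * (2 * (R * Λ)) := by
          have := mul_le_mul_of_nonneg_left (add_le_add e2 e3') (Real.exp_pos Φ).le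
          linarith
      _ ≤ exp Φ * (K ^ 2 * (R * Λ)) + exp Φ * (K ^ 2 * (R * Λ) + K ^ 2 * (7 * (R * Λ)))
            + exp Φ * (K ^ 2 * (2 * (R * Λ))) := by
          have h1 : K ^ 2 * (R * Λ) ≤ exp Φ * (K ^ 2 * (R * Λ)) :=
            le_mul_of_one_le_left hb1 hexp
          have h2 : K ^ 2 * (2 * (R * Λ)) ≤ exp Φ * (K ^ 2 * (2 * (R * Λ))) :=
            le_mul_of_one_le_left (by linarith) hexp
          linarith
      _ = exp Φ * (K ^ 2 * (R * (11 * Λ))) := by ring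
      _ ≤ _ := by
          have : K ^ 2 * (R * (11 * Λ)) ≤ K ^ 2 * (R * (13 * Λ)) := by
            have : K ^ 2 * (R * (13 * Λ)) - K ^ 2 * (R * (11 * Λ)) = 2 * (K ^ 2 * (R * Λ)) := by
              ring
            linarith
          exact mul_le_mul_of_nonneg_left this (Real.exp_pos Φ).le
  have hX2 : X ≤ 2 ^ (2 * (j + m) + u) * (exp Φ * (K ^ 2 * (R * (13 * Λ)))) :=
    hmain.trans (mul_le_mul_of_nonneg_left hbr (by positivity))
  have hlog := log_le_log hX0 hX2
  have hΛ0 : 0 < 13 * Λ := by linarith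
  have hR0 : 0 < R := by linarith
  have hK0 : 0 < K := by linarith
  rw [log_mul (by positivity) (by positivity), log_mul (by positivity) (by positivity),
    log_mul (by positivity) (by positivity), log_mul (by positivity) (by positivity), log_pow,
    log_exp, log_pow, hR, log_rpow hX0] at hlog
  push_cast at hlog
  have hlΛ : 0 ≤ log (13 * Λ) := log_nonneg (by linarith)
  have hlK : 0 ≤ log K := log_nonneg hK1
  have hj : (0 : ℝ) ≤ (j : ℝ) + m := by positivity
  have hu2 : (u : ℝ) * log 2 ≤ 0.08665 * log X := by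
    calc (u : ℝ) * log 2 ≤ (log X / 8) * 0.6932 :=
          mul_le_mul hu hlog2'.le (by linarith) (by linarith)
      _ = 0.08665 * log X := by ring
  have hjm : (2 * ((j : ℝ) + m)) * log 2 ≤ 1.3864 * ((j : ℝ) + m) := by nlinarith
  have hsum : (2 * ((j : ℝ) + m) + u) * log 2
      = (2 * ((j : ℝ) + m)) * log 2 + u * log 2 := by ring
  push_cast
  rw [hsum] at hlog
  linarith

end Pool.Agent.Lib.MP_f02ea4_nt.AG
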