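import Mathlib
import Pool.Agent.Lib.MP_f02ea4_nt.AE.ElimB

/-! Parameters of one level (MP_f02ea4, radical bound). -/

set_option autoImplicit false

namespace Pool.Agent.Lib.MP_f02ea4_nt.AG

open Finset Real
open Pool.Agent.Lib.MP_f02ea4_nt.AE (DD)

/-- choice of `C1` -/
lemma pm_exists_C1 (K1 K2 : ℝ) (hK1 : 0 ≤ K1) (hK2 : 0 ≤ K2) :
    ∃ C1 : ℝ, 3 ≤ C1 ∧ K1 + K2 * log C1 ≤ C1 := by
  set s : ℝ := K1 + 2 * K2 + 3 with hs
  have hs3 : 3 ≤ s := by linarith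
  have hs0 : 0 < s := by linarith
  refine ⟨s ^ 2, by nlinarith, ?_⟩
  rw [Real.log_pow]
  have h1 : log s ≤ s := (Real.log_le_sub_one_of_pos hs0).trans (by linarith)
  push_cast
  have h2 : K2 * (2 * log s) ≤ K2 * (2 * s) := by
    apply mul_le_mul_of_nonneg_left _ hK2
    linarith
  nlinarith

/-- bounds for `log R`, `R = 100 h E Y` -/
lemma pm_logR (h E Y : ℕ) (lam a1 C1 C : ℝ) (hlam : 1 ≤ lam) (ha1 : 1 ≤ a1)
    (hC1 : 1 ≤ C1) (hh1 : 1 ≤ h) (hE1 : 1 ≤ E) (hY1 : 1 ≤ Y)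
    (hh : (h : ℝ) ≤ a1 * lam ^ 2) (hE : (E : ℝ) ≤ 2 * lam ^ 2) (hY : (Y : ℝ) ≤ 2 * C1 * lam ^ 6)
    (hYlow : lam ^ 6 ≤ (Y : ℝ)) (hC : 400 * a1 * C1 ≤ C) :
    log (Pool.Agent.Lib.MP_f02ea4_nt.Ml.pR h E Y : ℝ) ≤ 10 * log (C * lam) ∧
      log (Pool.Agent.Lib.MP_f02ea4_nt.Ml.pR h E Y : ℝ) ≤
        log (400 * a1) + log C1 + 10 * log lam ∧
      4 ≤ log (Pool.Agent.Lib.MP_f02ea4_nt.Ml.pR h E Y : ℝ) ∧
      6 * log lam ≤ log (Pool.Agent.Lib.MP_f02ea4_nt.Ml.pR h E Y : ℝ) := by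
  have hlam0 : 0 < lam := by linarith
  have hh0 : (0 : ℝ) < h := by exact_mod_cast hh1
  have hE0 : (0 : ℝ) < E := by exact_mod_cast hE1
  have hY0 : (0 : ℝ) < Y := by exact_mod_cast hY1
  have e : (Pool.Agent.Lib.MP_f02ea4_nt.Ml.pR h E Y : ℝ) = 100 * h * E * Y := by
    unfold Pool.Agent.Lib.MP_f02ea4_nt.Ml.pR; push_cast; ring
  have hRpos : (0 : ℝ) < 100 * h * E * Y := by positivity
  have hR : (100 * h * E * Y : ℝ) ≤ 400 * a1 * C1 * lam ^ 10 := by
    calc (100 * h * E * Y : ℝ) ≤ 100 * (a1 * lam ^ 2) * (2 * lam ^ 2) * (2 * C1 * lam ^ 6) := by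
          have h1 : (100 * h : ℝ) ≤ 100 * (a1 * lam ^ 2) := by linarith
          have h2 : (100 * h * E : ℝ) ≤ 100 * (a1 * lam ^ 2) * (2 * lam ^ 2) :=
            mul_le_mul h1 hE hE0.le (by positivity)
          exact mul_le_mul h2 hY hY0.le (by positivity)
      _ = 400 * a1 * C1 * lam ^ 10 := by ring
  have hC20 : (1 : ℝ) ≤ 400 * a1 * C1 := by
    have h2 : 1 ≤ a1 * C1 := one_le_mul_of_one_le_of_one_le ha1 hC1
    linarith
  have hC0 : 0 < C := by linarith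
  have h2 : (1 : ℝ) ≤ h := by exact_mod_cast hh1
  have h3 : (1 : ℝ) ≤ E := by exact_mod_cast hE1
  have h4 : (1 : ℝ) ≤ Y := by exact_mod_cast hY1
  have hhE : (1 : ℝ) ≤ h * E := one_le_mul_of_one_le_of_one_le h2 h3
  rw [e]
  refine ⟨?_, ?_, ?_, ?_⟩
  · have h1 : (100 * h * E * Y : ℝ) ≤ (C * lam) ^ 10 := by
      refine hR.trans ?_
      rw [mul_pow]
      apply mul_le_mul_of_nonneg_right _ (by positivity)
      have hC1' : 1 ≤ C := by linarith
      calc 400 * a1 * C1 ≤ C := hC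
        _ = C ^ 1 := (pow_one C).symm
        _ ≤ C ^ 10 := pow_le_pow_right₀ hC1' (by norm_num)
    have h2 := Real.log_le_log hRpos h1
    rw [Real.log_pow] at h2
    push_cast at h2
    exact h2
  · have h2 := Real.log_le_log hRpos hR
    have h3 : log (400 * a1 * C1 * lam ^ 10) = log (400 * a1) + log C1 + 10 * log lam := by
      rw [Real.log_mul (by positivity) (by positivity),
        Real.log_mul (x := 400 * a1) (by positivity) (by positivity), Real.log_pow]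
      push_cast
      ring
    linarith
  · have h1 : (100 : ℝ) ≤ 100 * h * E * Y := by
      have h6 : (1 : ℝ) ≤ h * E * Y := one_le_mul_of_one_le_of_one_le hhE h4
      linarith
    rw [Real.le_log_iff_exp_le hRpos]
    refine le_trans ?_ h1
    have h2 : Real.exp 1 < 2.7182818286 := Real.exp_one_lt_d9
    have h3 : Real.exp 4 = Real.exp 1 ^ 4 := by rw [← Real.exp_nat_mul]; norm_num
    rw [h3]
    calc Real.exp 1 ^ 4 ≤ (2.7182818286 : ℝ) ^ 4 :=
          pow_le_pow_left₀ (Real.exp_pos 1).le h2.le 4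
      _ ≤ 100 := by norm_num
  · have h5 : 6 * log lam = log (lam ^ 6) := by rw [Real.log_pow]; push_cast; ring
    rw [h5]
    apply Real.log_le_log (by positivity)
    have h6 : (Y : ℝ) ≤ h * E * Y := by
      have := mul_le_mul_of_nonneg_right hhE hY0.le
      linarith
    linarith

lemma pm_log_three : log (3 : ℝ) ≤ 1.1 := by
  rw [Real.log_le_iff_le_exp (by norm_num)]
  have h5 : Real.exp (1.1 : ℝ) = Real.exp 1 * Real.exp 0.1 := by
    rw [← Real.exp_add]; norm_num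
  have h6 : 2.7182818283 < Real.exp 1 := Real.exp_one_gt_d9
  have h7 : (1.105 : ℝ) ≤ Real.exp 0.1 := by
    have := Real.quadratic_le_exp_of_nonneg (show (0 : ℝ) ≤ 0.1 by norm_num)
    norm_num at this ⊢
    linarith
  rw [h5]
  nlinarith

lemma pm_log_hundred : log (100 : ℝ) ≤ 5 := by
  rw [Real.log_le_iff_le_exp (by norm_num)]
  have h2 : 2.7182818283 < Real.exp 1 := Real.exp_one_gt_d9
  have h3 : Real.exp 5 = Real.exp 1 ^ 5 := by rw [← Real.exp_nat_mul]; norm_num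
  rw [h3]
  calc (100 : ℝ) ≤ (2.7182818283 : ℝ) ^ 5 := by norm_num
    _ ≤ Real.exp 1 ^ 5 := pow_le_pow_left₀ (by norm_num) h2.le 5

/-- condition (9) -/
lemma pm_cond9 (X C1 cB lam D lR h t V E Cm Bb Yr : ℝ) (hlam : 1 + log X ≤ lam) (hX : 1 ≤ X)
    (hC13 : 3 ≤ C1) (hcB : 0 ≤ cB)
    (hC1 : 60 + 13056 * (cB + 10) + 13056 * log C1 ≤ C1)
    (hlogD : log D = (32 * h + 64) * lR) (hlR0 : 0 ≤ lR) (hlR : lR ≤ cB + log C1 + 10 * log lam)
    (hh : h ≤ 100 * lam ^ 2) (hD : 1 ≤ D) (ht : 1 ≤ t) (hth : t ≤ h)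
    (hV1 : 1 ≤ V) (hV : V ≤ 3 * X) (hE1 : 1 ≤ E) (hE : E ≤ 2 * lam) (hCm1 : 1 ≤ Cm)
    (hCm2 : Cm ≤ 3 * t ^ 2 * (D * D)) (hBb0 : 0 < Bb) (hBb : Bb ≤ 5 * (t * Cm * V * E))
    (hY : C1 * lam ^ 6 ≤ Yr) :
    log Bb + log (1 + (t * Cm * (V * E) + V * E)) ≤ Yr := by
  have hlX : 0 ≤ log X := Real.log_nonneg hX
  have hX0 : 0 < X := by linarith
  have hlam1 : 1 ≤ lam := by linarith
  have hlam0 : 0 < lam := by linarith
  have hD0 : 0 < D := by linarith
  have ht0 : 0 < t := by linarith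
  have hV0 : 0 < V := by linarith
  have hE0 : 0 < E := by linarith
  have hCm0 : 0 < Cm := by linarith
  have hl100 := pm_log_hundred
  have hlt : log t ≤ 5 + 2 * log lam := by
    have h1 : log (lam ^ 2) = 2 * log lam := by rw [Real.log_pow]; push_cast; ring
    have h2 : log t ≤ log (100 * lam ^ 2) := Real.log_le_log ht0 (hth.trans hh)
    rw [Real.log_mul (by norm_num) (by positivity), h1] at h2
    linarith
  have hllam : log lam ≤ lam - 1 := Real.log_le_sub_one_of_pos hlam0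
  have hllam0 : 0 ≤ log lam := Real.log_nonneg hlam1
  have hlV : log V ≤ log 3 + log X := by
    rw [← Real.log_mul (by norm_num) hX0.ne']
    exact Real.log_le_log hV0 hV
  have hlE : log E ≤ log 2 + log lam := by
    rw [← Real.log_mul (by norm_num) (by positivity)]
    exact Real.log_le_log hE0 hE
  have hl2 : log (2 : ℝ) < 0.6931471808 := Real.log_two_lt_d9
  have hl3 := pm_log_three
  have hlC1 : 0 ≤ log C1 := Real.log_nonneg (by linarith)
  have hlam21 : 1 ≤ lam ^ 2 := one_le_pow₀ hlam1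
  have hlD : log D ≤ 3264 * (lam ^ 3 * (cB + log C1 + 10)) := by
    rw [hlogD]
    have h1 : (32 * h + 64 : ℝ) ≤ 3264 * lam ^ 2 := by linarith
    have h2 : lR ≤ lam * (cB + log C1 + 10) := by
      have h3 : 0 ≤ cB + log C1 := by linarith
      have h4 : 1 * (cB + log C1) ≤ lam * (cB + log C1) := mul_le_mul_of_nonneg_right hlam1 h3
      linarith
    calc (32 * h + 64 : ℝ) * lR ≤ (3264 * lam ^ 2) * (lam * (cB + log C1 + 10)) :=
          mul_le_mul h1 h2 hlR0 (by positivity)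
      _ = 3264 * (lam ^ 3 * (cB + log C1 + 10)) := by ring
  have hlCm : log Cm ≤ log 3 + 2 * log t + 2 * log D := by
    have h1 := Real.log_le_log hCm0 hCm2
    rw [Real.log_mul (by positivity) (by positivity),
      Real.log_mul (x := (3 : ℝ)) (by norm_num) (by positivity), Real.log_pow,
      Real.log_mul hD0.ne' hD0.ne'] at h1
    push_cast at h1
    linarith
  set W := t * Cm * V * E with hWd
  have hW0 : 0 < W := by rw [hWd]; positivity
  have hlW : log W = log t + log Cm + log V + log E := by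
    rw [hWd, Real.log_mul (by positivity) (by positivity),
      Real.log_mul (by positivity) (by positivity), Real.log_mul (by positivity) (by positivity)]
  have hlBb : log Bb ≤ log 5 + log W := by
    rw [← Real.log_mul (by norm_num) (by positivity)]
    exact Real.log_le_log hBb0 hBb
  have htCm : 1 ≤ t * Cm := one_le_mul_of_one_le_of_one_le ht hCm1
  have hVE1 : 1 ≤ V * E := one_le_mul_of_one_le_of_one_le hV1 hE1
  have hWe : W = (t * Cm) * (V * E) := by rw [hWd]; ring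
  have hW1 : 1 ≤ W := by rw [hWe]; exact one_le_mul_of_one_le_of_one_le htCm hVE1
  have hVE : V * E ≤ W := by
    rw [hWe]
    calc V * E = 1 * (V * E) := (one_mul _).symm
      _ ≤ (t * Cm) * (V * E) := mul_le_mul_of_nonneg_right htCm (by linarith)
  have hl1W : log (1 + (t * Cm * (V * E) + V * E)) ≤ log 3 + log W := by
    rw [← Real.log_mul (by norm_num) (by positivity)]
    apply Real.log_le_log (by positivity)
    rw [← hWe]
    linarith
  have hl5 : log (5 : ℝ) ≤ 4 := (Real.log_le_sub_one_of_pos (by norm_num)).trans (by norm_num)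
  have hlam13 : lam ≤ lam ^ 3 := by
    calc lam = lam ^ 1 := (pow_one lam).symm
      _ ≤ lam ^ 3 := pow_le_pow_right₀ hlam1 (by norm_num)
  have hlam31 : 1 ≤ lam ^ 3 := one_le_pow₀ hlam1
  have hsum : log Bb + log (1 + (t * Cm * (V * E) + V * E)) ≤ lam ^ 3 * C1 := by
    have e1 : lam ^ 3 * (60 + 13056 * (cB + 10) + 13056 * log C1) = 60 * lam ^ 3 +
        4 * (3264 * (lam ^ 3 * (cB + log C1 + 10))) := by
      ring
    have h0 := mul_le_mul_of_nonneg_left hC1 (by positivity : 0 ≤ lam ^ 3)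
    rw [e1] at h0
    have h1 : log Bb + log (1 + (t * Cm * (V * E) + V * E)) ≤
        log 5 + log 3 + 2 * (3 * log t + log 3 + 2 * log D + log V + log E) := by
      linarith
    have h2 : log 5 + log 3 + 2 * (3 * log t + log 3 + 2 * log D + log V + log E) ≤
        44 + 16 * lam + 4 * log D := by
      linarith
    linarith
  have hl23 : lam ^ 3 ≤ lam ^ 6 := pow_le_pow_right₀ hlam1 (by norm_num)
  calc log Bb + log (1 + (t * Cm * (V * E) + V * E)) ≤ lam ^ 3 * C1 := hsum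
    _ ≤ lam ^ 6 * C1 := mul_le_mul_of_nonneg_right hl23 (by linarith)
    _ = C1 * lam ^ 6 := by ring
    _ ≤ Yr := hY

/-- PARAMETERS.  `λ = 1 + log X + lz`, `Y = ⌈C1 λ ^ 6⌉`, `D = DD h E Y`, `ρ = D`, `Cm = ⌈2 t^2 D^2⌉`,
`Bb = ⌈3 t Cm V E + 1⌉`, `Ks = 4 t Cm D`. -/
theorem params : ∃ C : ℕ, 1 ≤ C ∧ ∀ (X lz : ℝ) (V t g j h E : ℕ), 1 ≤ X → 0 ≤ lz → 1 ≤ V →
    (V : ℝ) ≤ 3 * X → 1 ≤ t → 1 ≤ g → h = t * (g + 1) + j →
    (h : ℝ) ≤ 100 * (1 + log X + lz) ^ 2 → E = ⌈lz⌉₊ + 1 →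
    ∃ (Y Cm Bb : ℕ) (ρ Ks : ℝ), 1 ≤ Y ∧ 1 < ρ ∧ 1 ≤ Ks ∧ 2 * (t : ℝ) ^ 2 * DD h E Y * ρ ≤ Cm ∧
      3 * (t * Cm * V * E : ℝ) + 1 ≤ Bb ∧
      log (Bb : ℝ) + log (1 + (t * Cm * (V * E) + V * E)) ≤ Y ∧
      3 * (t * Cm * DD h E Y) < Ks ∧
      log (2 + ρ * Ks) ≤ C * h * log (C * (1 + log X + lz)) ∧
      t * (2 * g + 1) * (1 + log (V * E) / log ρ) ≤ 2 * h + log X / 64 + 1 := by
  have hcB0 : 0 ≤ log (400 * (100 : ℝ)) := Real.log_nonneg (by norm_num)
  obtain ⟨cB, hcB⟩ : ∃ cB : ℝ, cB = log (400 * (100 : ℝ)) := ⟨_, rfl⟩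
  rw [← hcB] at hcB0
  obtain ⟨C1, hC13, hC1⟩ := pm_exists_C1 (60 + 13056 * (cB + 10)) 13056 (by positivity)
    (by norm_num)
  have hC10 : 0 < C1 := by linarith
  obtain ⟨C, hC⟩ := exists_nat_ge (400 * 100 * C1 + 4000)
  have hCa : 400 * 100 * C1 ≤ (C : ℝ) := by linarith
  have hCe : (4000 : ℝ) ≤ (C : ℝ) := by linarith
  have hCnat : 1 ≤ C := by
    have : (1 : ℝ) ≤ C := by linarith
    exact_mod_cast this
  refine ⟨C, hCnat, ?_⟩
  intro X lz V t g j h E hX hlz hV1 hV ht hg hh hhl hE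
  have hX0 : 0 < X := by linarith
  have hlX : 0 ≤ log X := Real.log_nonneg hX
  obtain ⟨lam, hlam⟩ : ∃ lam : ℝ, lam = 1 + log X + lz := ⟨_, rfl⟩
  rw [← hlam] at hhl ⊢
  have hlam1 : 1 ≤ lam := by linarith
  have hlam0 : 0 < lam := by linarith
  have hlam21 : 1 ≤ lam ^ 2 := one_le_pow₀ hlam1
  have ht1 : (1 : ℝ) ≤ t := by exact_mod_cast ht
  have hg1 : (1 : ℝ) ≤ g := by exact_mod_cast hg
  have hj0 : (0 : ℝ) ≤ j := Nat.cast_nonneg _
  have ht0 : (0 : ℝ) < t := by linarith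
  have hh0 : (h : ℝ) = t * (g + 1) + j := by rw [hh]; push_cast; ring
  have hth2 : (t : ℝ) * (2 * g + 1) ≤ 2 * h := by
    rw [hh0]
    have : (t : ℝ) * (2 * g + 1) = 2 * (t * (g + 1)) - t := by ring
    linarith
  have hthn : t ≤ h := by
    rw [hh]
    have : t * 1 ≤ t * (g + 1) := Nat.mul_le_mul_left _ (by omega)
    omega
  have hth : (t : ℝ) ≤ h := by exact_mod_cast hthn
  have hhn : 1 ≤ h := ht.trans hthn
  have hh1 : (1 : ℝ) ≤ h := by exact_mod_cast hhn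
  -- `E`
  have hEn : 1 ≤ E := by omega
  have hEr : (1 : ℝ) ≤ E := by exact_mod_cast hEn
  have hE2l : (E : ℝ) ≤ 2 * lam := by
    have h1 := (Nat.ceil_lt_add_one hlz).le
    have h2 : (E : ℝ) = ⌈lz⌉₊ + 1 := by rw [hE]; push_cast; ring
    rw [h2]
    linarith
  have hElam : (E : ℝ) ≤ 2 * lam ^ 2 := by
    have h1 : lam * 1 ≤ lam * lam := mul_le_mul_of_nonneg_left hlam1 hlam0.le
    have h2 : lam * lam = lam ^ 2 := by ring
    linarith
  -- `Y`
  obtain ⟨Y, hY⟩ : ∃ Y : ℕ, Y = ⌈C1 * lam ^ 6⌉₊ := ⟨_, rfl⟩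
  have hlam6 : 1 ≤ lam ^ 6 := one_le_pow₀ hlam1
  have hY1 : C1 * lam ^ 6 ≤ Y := by rw [hY]; exact Nat.le_ceil _
  have hYge : 1 ≤ C1 * lam ^ 6 := one_le_mul_of_one_le_of_one_le (by linarith) hlam6
  have hYlow : lam ^ 6 ≤ (Y : ℝ) := by
    have h1 : 1 * lam ^ 6 ≤ C1 * lam ^ 6 := mul_le_mul_of_nonneg_right (by linarith) (by positivity)
    linarith
  have hY2 : (Y : ℝ) ≤ 2 * C1 * lam ^ 6 := by
    have := (Nat.ceil_lt_add_one (show 0 ≤ C1 * lam ^ 6 by positivity)).le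
    rw [← hY] at this
    linarith
  have hYn : 1 ≤ Y := by
    have : (1 : ℝ) ≤ Y := hYge.trans hY1
    exact_mod_cast this
  obtain ⟨hR1, hR2, hR3, hR4⟩ := pm_logR h E Y lam 100 C1 C hlam1 (by norm_num) (by linarith)
    hhn hEn hYn hhl hElam hY2 hYlow hCa
  rw [← hcB] at hR2
  have hD100 : 100 ≤ DD h E Y := Pool.Agent.Lib.MP_f02ea4_nt.AE.DD_ge hhn hEn hYn
  obtain ⟨lR, hlR⟩ : ∃ lR : ℝ, lR = log (Pool.Agent.Lib.MP_f02ea4_nt.Ml.pR h E Y : ℝ) := ⟨_, rfl⟩
  have hlogD : log (DD h E Y) = (32 * h + 64) * lR := by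
    rw [hlR]
    unfold DD
    rw [Real.log_pow]
    push_cast
    ring
  rw [← hlR] at hR1 hR2 hR3 hR4
  obtain ⟨D, hDdef⟩ : ∃ D : ℝ, D = DD h E Y := ⟨_, rfl⟩
  rw [← hDdef] at hD100 hlogD
  have hD0 : 0 < D := by linarith
  have hD1 : 1 ≤ D := by linarith
  obtain ⟨Cm, hCm⟩ : ∃ Cm : ℕ, Cm = ⌈2 * (t : ℝ) ^ 2 * D * D⌉₊ := ⟨_, rfl⟩
  have hCm1 : 2 * (t : ℝ) ^ 2 * D * D ≤ Cm := by rw [hCm]; exact Nat.le_ceil _
  have ht2 : 1 ≤ (t : ℝ) ^ 2 := one_le_pow₀ ht1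
  have hDD1 : 1 ≤ D * D := one_le_mul_of_one_le_of_one_le hD1 hD1
  have ht2D : 1 ≤ (t : ℝ) ^ 2 * (D * D) := one_le_mul_of_one_le_of_one_le ht2 hDD1
  have hCm2 : (Cm : ℝ) ≤ 3 * (t : ℝ) ^ 2 * (D * D) := by
    have := (Nat.ceil_lt_add_one (show 0 ≤ 2 * (t : ℝ) ^ 2 * D * D by positivity)).le
    rw [← hCm] at this
    linarith
  have hCmr : 1 ≤ (Cm : ℝ) := by linarith
  have hVr : (1 : ℝ) ≤ V := by exact_mod_cast hV1
  have hWpos : 1 ≤ (t * Cm * V * E : ℝ) :=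
    one_le_mul_of_one_le_of_one_le (one_le_mul_of_one_le_of_one_le
      (one_le_mul_of_one_le_of_one_le ht1 hCmr) hVr) hEr
  obtain ⟨Bb, hBb⟩ : ∃ Bb : ℕ, Bb = ⌈3 * (t * Cm * V * E : ℝ) + 1⌉₊ := ⟨_, rfl⟩
  have hBb1 : 3 * (t * Cm * V * E : ℝ) + 1 ≤ Bb := by rw [hBb]; exact Nat.le_ceil _
  have hBb2 : (Bb : ℝ) ≤ 5 * (t * Cm * V * E : ℝ) := by
    have := (Nat.ceil_lt_add_one (show 0 ≤ 3 * (t * Cm * V * E : ℝ) + 1 by positivity)).le
    rw [← hBb] at this
    linarith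
  have hBbpos : (0 : ℝ) < Bb := by linarith
  have htCmD : 1 ≤ (t * Cm * D : ℝ) :=
    one_le_mul_of_one_le_of_one_le (one_le_mul_of_one_le_of_one_le ht1 hCmr) hD1
  refine ⟨Y, Cm, Bb, D, 4 * (t * Cm * D), hYn, by linarith, by linarith,
    by rw [← hDdef]; exact hCm1, hBb1, ?_, by rw [← hDdef]; linarith, ?_, ?_⟩
  · exact pm_cond9 X C1 cB lam D lR h t V E Cm Bb Y (by linarith) hX hC13 hcB0
      hC1 hlogD (by linarith) hR2 hhl hD1 ht1 hth hVr hV hEr hE2l hCmr hCm2 hBbpos hBb2 hY1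
  · -- `log (2 + ρ Ks)`
    obtain ⟨Lc, hLc⟩ : ∃ Lc, Lc = log (C * lam) := ⟨_, rfl⟩
    rw [← hLc] at hR1 ⊢
    have hLc1 : 1 ≤ Lc := by
      rw [hLc, Real.le_log_iff_exp_le (by positivity)]
      have h1 := Real.exp_one_lt_d9
      have h2 : (C : ℝ) * 1 ≤ C * lam := mul_le_mul_of_nonneg_left hlam1 (by linarith)
      linarith
    have hlt : log (t : ℝ) ≤ h := by
      have := Real.log_le_sub_one_of_pos ht0
      linarith
    have hlD : log D ≤ 960 * (h * Lc) := by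
      rw [hlogD]
      have h1 : (32 * h + 64 : ℝ) ≤ 96 * h := by linarith
      calc (32 * h + 64 : ℝ) * lR ≤ (96 * h) * (10 * Lc) :=
            mul_le_mul h1 hR1 (by linarith) (by positivity)
        _ = 960 * (h * Lc) := by ring
    have hSle : 2 + D * (4 * (t * Cm * D)) ≤ 14 * ((t : ℝ) ^ 3 * D ^ 4) := by
      have h1 : D * (4 * (t * Cm * D)) ≤ 12 * ((t : ℝ) ^ 3 * D ^ 4) := by
        have e1 : D * (4 * (t * Cm * D)) = (4 * t * D ^ 2) * Cm := by ring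
        have e2 : 12 * ((t : ℝ) ^ 3 * D ^ 4) = (4 * t * D ^ 2) * (3 * (t : ℝ) ^ 2 * (D * D)) := by
          ring
        rw [e1, e2]
        exact mul_le_mul_of_nonneg_left hCm2 (by positivity)
      have h2 : 1 ≤ (t : ℝ) ^ 3 * D ^ 4 :=
        one_le_mul_of_one_le_of_one_le (one_le_pow₀ ht1) (one_le_pow₀ hD1)
      linarith
    have h1 := Real.log_le_log (by positivity) hSle
    rw [Real.log_mul (by norm_num) (by positivity), Real.log_mul (by positivity) (by positivity),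
      Real.log_pow, Real.log_pow] at h1
    push_cast at h1
    have h14 : log (14 : ℝ) ≤ 13 := (Real.log_le_sub_one_of_pos (by norm_num)).trans (by norm_num)
    have hhL : (h : ℝ) ≤ h * Lc := by
      have := mul_le_mul_of_nonneg_left hLc1 (by linarith : (0 : ℝ) ≤ h)
      linarith
    have h2 : log (2 + D * (4 * (t * Cm * D))) ≤ 3856 * (h * Lc) := by linarith
    have h3 : 3856 * (h * Lc) ≤ C * (h * Lc) :=
      mul_le_mul_of_nonneg_right (by linarith) (by positivity)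
    have h4 : (C : ℝ) * h * Lc = C * (h * Lc) := by ring
    rw [h4]
    linarith
  · -- last clause
    have hVE1 : (1 : ℝ) ≤ V * E := one_le_mul_of_one_le_of_one_le hVr hEr
    have hlVE0 : 0 ≤ log (V * E : ℝ) := Real.log_nonneg hVE1
    have hl2 : log (2 : ℝ) < 0.6931471808 := Real.log_two_lt_d9
    have hl3 := pm_log_three
    have hllam0 : 0 ≤ log lam := Real.log_nonneg hlam1
    have hlVE : log (V * E : ℝ) ≤ log X + 2 + log lam := by
      rw [Real.log_mul (by linarith) (by linarith)]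
      have h1 : log (V : ℝ) ≤ log 3 + log X := by
        rw [← Real.log_mul (by norm_num) hX0.ne']
        exact Real.log_le_log (by linarith) hV
      have h2 : log (E : ℝ) ≤ log 2 + log lam := by
        rw [← Real.log_mul (by norm_num) (by positivity)]
        exact Real.log_le_log (by linarith) hE2l
      linarith
    have hlRpos : 0 < lR := by linarith
    have hlDpos : 0 < log D := by rw [hlogD]; positivity
    have hq : log (V * E : ℝ) ≤ (log X / 4 + 1) * lR := by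
      have h1 : 0 ≤ log X / 4 := by positivity
      have h2 : (log X / 4) * 4 ≤ (log X / 4) * lR := mul_le_mul_of_nonneg_left hR3 h1
      linarith
    have hkey : t * (2 * g + 1) * (log (V * E : ℝ) / log D) ≤ log X / 64 + 1 := by
      rw [mul_div_assoc', div_le_iff₀ hlDpos]
      have h1 : (t : ℝ) * (2 * g + 1) * log (V * E : ℝ) ≤ (2 * h) * ((log X / 4 + 1) * lR) :=
        mul_le_mul hth2 hq hlVE0 (by linarith)
      have h2 : (2 * h : ℝ) * ((log X / 4 + 1) * lR) ≤ (log X / 64 + 1) * log D := by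
        rw [hlogD]
        have h3 : (log X / 64 + 1) * ((32 * h + 64) * lR) - 2 * h * ((log X / 4 + 1) * lR) =
            (log X + 30 * h + 64) * lR := by ring
        have h4 : 0 ≤ (log X + 30 * h + 64) * lR := by positivity
        linarith
      linarith
    have h5 : (t : ℝ) * (2 * g + 1) * (1 + log (V * E) / log D) =
        t * (2 * g + 1) + t * (2 * g + 1) * (log (V * E : ℝ) / log D) := by ring
    rw [h5]
    linarith

end Pool.Agent.Lib.MP_f02ea4_nt.AG
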