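import Mathlib
import Pool.Agent.Lib.MP_f02ea4_nt.Mg.G020
import Pool.Agent.Lib.MP_f02ea4_nt.AG.Apply3
import Pool.Agent.Lib.MP_f02ea4_nt.Mg.G022
import Pool.Agent.Lib.MP_f02ea4_nt.AG.Params
import Pool.Agent.Lib.MP_f02ea4_nt.Mg.G024
import Pool.Agent.Lib.MP_f02ea4_nt.AG.NumF

/-! The core bound with kept primes, assembly. -/

set_option autoImplicit false

namespace Pool.Agent.Lib.MP_f02ea4_nt.AG

open Finset Real
open Pool.Agent.Lib.MP_f02ea4_nt.Sm
open Pool.Agent.Lib.MP_f02ea4_nt.Ml (Lg s_prime s_aa_nonneg HH process basics)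
open Pool.Agent.Lib.MP_f02ea4_nt.AE (Vs hv DD nn_le_log log_ge_one col_le)

/-- iteration of one level -/
lemma iterate {V : Finset ℕ} (mass : Finset ℕ → ℝ) (M κ c1 b' : ℝ) (hM : 0 < M)
    (hstep : ∀ s : ℝ, M ≤ s → ∀ U ⊆ V, (U.card : ℝ) ≤ s → ∃ U' ⊆ U, (U'.card : ℝ) ≤ 3 / 4 * s ∧
      mass U' ≤ exp (κ * (c1 + b' / s)) * mass U) (n : ℕ) :
    ∀ U ⊆ V, (U.card : ℝ) ≤ M * (4 / 3) ^ n → ∃ U' ⊆ U, (U'.card : ℝ) ≤ M ∧
      mass U' ≤ exp (κ * (c1 * n + b' / M * (3 * (1 - (3 / 4) ^ n)))) * mass U := by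
  induction n with
  | zero =>
    intro U _ hU
    refine ⟨U, Subset.refl _, by simpa using hU, ?_⟩
    simp
  | succ n ih =>
    intro U hUV hU
    have hs : M ≤ M * (4 / 3) ^ (n + 1) := by
      have : (1 : ℝ) ≤ (4 / 3) ^ (n + 1) := one_le_pow₀ (by norm_num)
      nlinarith
    obtain ⟨U1, hU1, hc, hm1⟩ := hstep _ hs U hUV hU
    obtain ⟨U2, hU2, hc2, hm2⟩ := ih U1 (hU1.trans hUV) (by
      refine hc.trans (le_of_eq ?_)
      rw [pow_succ]
      ring)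
    refine ⟨U2, hU2.trans hU1, hc2, hm2.trans ?_⟩
    refine (mul_le_mul_of_nonneg_left hm1 (exp_pos _).le).trans (le_of_eq ?_)
    rw [← mul_assoc, ← Real.exp_add]
    congr 2
    have h1 : b' / (M * (4 / 3 : ℝ) ^ (n + 1)) = b' / M * (3 / 4) ^ (n + 1) := by
      have h2 : ((3 : ℝ) / 4) ^ (n + 1) = ((4 / 3 : ℝ) ^ (n + 1))⁻¹ := by
        rw [← inv_pow]
        norm_num
      rw [h2]
      field_simp
    rw [h1]
    push_cast
    ring

/-- number of levels -/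
lemma levels_number (M k : ℝ) (hM : 0 < M) (hk : 0 ≤ k) : ∃ n : ℕ, k ≤ M * (4 / 3) ^ n ∧
    (n : ℝ) ≤ 1 + 4 * log (1 + k / M) := by
  have h0 : 0 ≤ k / M := div_nonneg hk hM.le
  have hl : 0 ≤ log (1 + k / M) := Real.log_nonneg (by linarith)
  refine ⟨⌈4 * log (1 + k / M)⌉₊, ?_, ?_⟩
  · set n := ⌈4 * log (1 + k / M)⌉₊ with hn
    have h1 : 4 * log (1 + k / M) ≤ n := Nat.le_ceil _
    have h2 : (1 : ℝ) / 4 ≤ log (4 / 3) := by
      have := Real.one_sub_inv_le_log_of_pos (show (0 : ℝ) < 4 / 3 by norm_num)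
      norm_num at this ⊢
      linarith
    have h3 : log (1 + k / M) ≤ log ((4 / 3 : ℝ) ^ n) := by
      rw [Real.log_pow]
      nlinarith
    have h4 : 1 + k / M ≤ (4 / 3 : ℝ) ^ n :=
      (Real.log_le_log_iff (by linarith) (by positivity)).1 h3
    have h5 : k / M ≤ (4 / 3 : ℝ) ^ n := by linarith
    rw [div_le_iff₀ hM] at h5
    linarith
  · have := Nat.ceil_lt_add_one (by positivity : 0 ≤ 4 * log (1 + k / M))
    linarith

open Classical in
/-- the step of the iteration for an odd perfect number -/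
lemma opn_step {CP : ℕ}
    (hCP : ∀ (X lz : ℝ) (V t g j h E : ℕ), 1 ≤ X → 0 ≤ lz → 1 ≤ V →
      (V : ℝ) ≤ 3 * X → 1 ≤ t → 1 ≤ g → h = t * (g + 1) + j →
      (h : ℝ) ≤ 100 * (1 + log X + lz) ^ 2 → E = ⌈lz⌉₊ + 1 →
      ∃ (Y Cm Bb : ℕ) (ρ Ks : ℝ), 1 ≤ Y ∧ 1 < ρ ∧ 1 ≤ Ks ∧ 2 * (t : ℝ) ^ 2 * DD h E Y * ρ ≤ Cm ∧
        3 * (t * Cm * V * E : ℝ) + 1 ≤ Bb ∧
        log (Bb : ℝ) + log (1 + (t * Cm * (V * E) + V * E)) ≤ Y ∧
        3 * (t * Cm * DD h E Y) < Ks ∧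
        log (2 + ρ * Ks) ≤ CP * h * log (CP * (1 + log X + lz)) ∧
        t * (2 * g + 1) * (1 + log (V * E) / log ρ) ≤ 2 * h + log X / 64 + 1)
    (N y z : ℕ) (hodd : Odd N) (hN : Nat.Perfect N) (hy : 3 ≤ y) (hyz : y ≤ z) (a b T l : ℝ)
    (ha : 1 ≤ a) (hb : 0 ≤ b) (hT : T = log N ^ (1 / 4 : ℝ) * log y) (Iw : ℕ → ℝ)
    (hI : ∀ r ∈ Vs N y, (((Vs N y).filter (fun q => hv N T q r)).card : ℝ) ≤ Iw r)
    (hab : ∀ U ⊆ Vs N y, ∑ r ∈ U, Iw r ≤ a * U.card + b) (M : ℝ) (hM : M = log (log N) / 8)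
    (E : ℕ) (hE : E = ⌈log (z : ℝ)⌉₊ + 1)
    (hl : l = ((Vs N y).card + 1) * T + 2 * log y + log ((Nat.log 2 N + 1 : ℕ) : ℝ) + 2 + E)
    (hL : 128 ≤ log (log N)) (t : ℕ) (ht : t = 2 * ((Lg N z).card + 1))
    (hmax : (t : ℝ) * (⌈2 * (a + b / M)⌉₊ + 1) + (Md N y z).card ≤ log (log N) / 256)
    (s : ℝ) (hs : M ≤ s) (U : Finset ℕ) (hUV : U ⊆ Vs N y) (hUs : (U.card : ℝ) ≤ s) :
    ∃ U' ⊆ U, (U'.card : ℝ) ≤ 3 / 4 * s ∧
      ∑ q ∈ Vs N y \ U', (nn N q : ℝ) * log q + (Vs N y).card * l ≤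
        exp ((CP * log (CP * (1 + log (log N) + log z))) *
          ((4 * t * a + (Md N y z).card) + (2 * t * b) / s)) *
          (∑ q ∈ Vs N y \ U, (nn N q : ℝ) * log q + (Vs N y).card * l) := by
  obtain ⟨hX1, hlogN, hom, hom1⟩ := basics N hodd hN
  set X : ℝ := log (N : ℝ) with hX
  set L : ℝ := log X with hLdef
  set j := (Md N y z).card with hj
  set k := (Vs N y).card with hk
  have hyR : (3 : ℝ) ≤ y := by exact_mod_cast hy
  have hzR : (3 : ℝ) ≤ z := by exact_mod_cast hy.trans hyz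
  have hlogz1 : 1 ≤ log (z : ℝ) := d15_log3 hzR
  have hlogy1 : 1 ≤ log (y : ℝ) := d15_log3 hyR
  have hlogyz : log (y : ℝ) ≤ log z := Real.log_le_log (by linarith) (by exact_mod_cast hyz)
  have hM0 : 0 < M := by rw [hM]; linarith
  have hs0 : 0 < s := hM0.trans_le hs
  have hT0 : 0 ≤ T := by
    rw [hT]
    have : 0 ≤ X ^ (1 / 4 : ℝ) := Real.rpow_nonneg (by linarith) _
    exact mul_nonneg this (by linarith)
  set V : ℕ := Nat.log 2 N + 1 with hV
  have hVpos : 1 ≤ V := by omega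
  have hV1 : (1 : ℝ) ≤ V := by exact_mod_cast hVpos
  have hlogV : 0 ≤ log (V : ℝ) := Real.log_nonneg hV1
  have hbs : b / s ≤ b / M := div_le_div_of_nonneg_left hb hM0 hs
  have hbs0 : 0 ≤ b / s := div_nonneg hb hs0.le
  set g : ℕ := ⌈2 * (a + b / s)⌉₊ with hg
  have hg2 : 2 * (a + b / s) ≤ g := Nat.le_ceil _
  have hg3 : (g : ℝ) ≤ 2 * (a + b / s) + 1 :=
    (Nat.ceil_lt_add_one (by linarith)).le
  have hg1 : 1 ≤ g := by
    have : (1 : ℝ) ≤ g := by linarith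
    exact_mod_cast this
  have hgM : g ≤ ⌈2 * (a + b / M)⌉₊ := Nat.ceil_le_ceil (by linarith)
  set h : ℕ := t * (g + 1) + j with hh
  have ht1 : 1 ≤ t := by omega
  have ht1R : (1 : ℝ) ≤ t := by exact_mod_cast ht1
  have hhL : (h : ℝ) ≤ L / 256 := by
    refine le_trans ?_ hmax
    rw [hh]
    push_cast
    have h1 : (g : ℝ) ≤ (⌈2 * (a + b / M)⌉₊ : ℝ) := by exact_mod_cast hgM
    have h2 : (t : ℝ) * (g + 1) ≤ t * ((⌈2 * (a + b / M)⌉₊ : ℝ) + 1) :=
      mul_le_mul_of_nonneg_left (by linarith) (by linarith)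
    linarith
  have hhbound : (h : ℝ) ≤ 100 * (1 + log X + log z) ^ 2 := by
    have h1 : L / 256 ≤ 1 + log X + log z := by
      rw [← hLdef]
      linarith
    have h2 : 1 ≤ 1 + log X + log (z : ℝ) := by
      rw [← hLdef]
      linarith
    nlinarith
  obtain ⟨Y, Cm, Bb, ρ, Ks, hY1, hρ, hKs1, hCm, hBb, hYb, hKs, hcost, hE0⟩ :=
    hCP X (log z) V t g j h E hX1 (by linarith) hVpos hlogN ht1 hg1 hh hhbound hE
  have hE1 : 1 ≤ E := by omega
  have hzE : log (z : ℝ) ≤ E := by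
    rw [hE]
    push_cast
    have := Nat.le_ceil (log (z : ℝ))
    linarith
  have hE1R : (1 : ℝ) ≤ E := by exact_mod_cast hE1
  have hl0 : 0 < l := by
    rw [hl]
    have : 0 ≤ ((k : ℝ) + 1) * T := by positivity
    linarith
  have hEL := el_apply3 N y z T hT0 hodd hN hy hyz g t h E Y Cm Bb V ρ Ks l hV ht hh hE1 hzE hY1
    hKs1 hCm hBb hYb hKs (by rw [hl])
  have hz1 : ∀ q ∈ Vs N y, 1 ≤ (nn N q : ℝ) * log q := by
    intro q hq
    have hqm := Finset.mem_filter.1 hq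
    have h1 := log_ge_one hodd hqm.1
    have h2 : (1 : ℝ) ≤ nn N q := by exact_mod_cast (by unfold nn; omega : 1 ≤ nn N q)
    nlinarith
  have hzV : ∀ q ∈ Vs N y, (nn N q : ℝ) * log q ≤ V * E := by
    intro q hq
    have hqm := Finset.mem_filter.1 hq
    have h1 : (nn N q : ℝ) ≤ V := by
      rw [hV]
      exact_mod_cast nn_le_log N q
    have h2 : log (q : ℝ) ≤ E := by
      refine le_trans ?_ (hlogyz.trans hzE)
      exact Real.log_le_log (by exact_mod_cast (s_prime hqm.1).pos) (by exact_mod_cast hqm.2)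
    exact mul_le_mul h1 h2 (log_natCast_nonneg q) (by positivity)
  have hVE : (1 : ℝ) ≤ (V : ℝ) * E := by nlinarith
  have hUI : ∑ r ∈ U, Iw r ≤ g * s / 2 := by
    refine (hab U hUV).trans ?_
    have h1 : a * (U.card : ℝ) ≤ a * s := mul_le_mul_of_nonneg_left hUs (by linarith)
    have h2 : 2 * (a + b / s) * s = 2 * (a * s + b) := by field_simp
    have h3 : 2 * (a + b / s) * s ≤ g * s := mul_le_mul_of_nonneg_right hg2 hs0.le
    linarith
  obtain ⟨U', hU'U, hU'c, hU'm⟩ := level_step (Vs N y) (hv N T) (aa N)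
    (fun q => (nn N q : ℝ) * log q) Iw g t l ρ Ks ((V : ℝ) * E) s
    (fun q _ r _ => s_aa_nonneg N q r) hz1 hzV
    (fun r hr => col_le N y r hodd hN (Finset.mem_filter.1 hr).1) hI hs0.le hl0 hρ
    (by linarith) hVE hEL U hUV hUI
  refine ⟨U', hU'U, ?_, ?_⟩
  · refine hU'c.trans ?_
    have h1 : L / 32 ≤ s / 4 := by
      rw [hM] at hs
      linarith
    have h2 : log X / 64 = L / 64 := rfl
    rw [h2] at hE0
    linarith
  · refine hU'm.trans ?_
    have hS0 : 0 ≤ ∑ q ∈ Vs N y \ U, (nn N q : ℝ) * log q :=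
      sum_nonneg fun q _ => mul_nonneg (Nat.cast_nonneg _) (log_natCast_nonneg q)
    have hkl : 0 ≤ (k : ℝ) * l := by positivity
    apply mul_le_mul_of_nonneg_right _ (by linarith)
    have hpos : 0 < 2 + ρ * Ks := by nlinarith
    rw [← Real.exp_log hpos]
    apply exp_le_exp.2
    refine hcost.trans ?_
    have hlog0 : 0 ≤ log ((CP : ℝ) * (1 + log X + log z)) := by
      rcases Nat.eq_zero_or_pos CP with h0 | h0
      · rw [h0]
        simp
      · apply Real.log_nonneg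
        have h1 : (1 : ℝ) ≤ CP := by exact_mod_cast h0
        have h2 : 1 ≤ 1 + log X + log (z : ℝ) := by
          rw [← hLdef]
          linarith
        nlinarith
    have hh4 : (h : ℝ) ≤ (4 * t * a + j) + (2 * t * b) / s := by
      rw [hh]
      push_cast
      have h1 : (t : ℝ) * (g + 1) ≤ t * (4 * a + 2 * (b / s)) := by
        apply mul_le_mul_of_nonneg_left _ (by linarith)
        linarith
      have h2 : (2 * t * b) / s = t * (2 * (b / s)) := by ring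
      rw [h2]
      linarith
    have hCP0 : (0 : ℝ) ≤ CP := Nat.cast_nonneg _
    calc (CP : ℝ) * h * log (CP * (1 + log X + log z)) =
          CP * log (CP * (1 + log X + log z)) * h := by ring
      _ ≤ _ := mul_le_mul_of_nonneg_left hh4 (mul_nonneg hCP0 hlog0)

end Pool.Agent.Lib.MP_f02ea4_nt.AG
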