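import Mathlib
import Pool.Agent.Lib.MP_f02ea4_nt.AG.Core

/-! The core bound with kept primes, assembly, part 2. -/

set_option autoImplicit false

namespace Pool.Agent.Lib.MP_f02ea4_nt.AG

open Finset Real
open Pool.Agent.Lib.MP_f02ea4_nt.Sm
open Pool.Agent.Lib.MP_f02ea4_nt.Ml (Lg s_prime s_aa_nonneg HH process basics)
open Pool.Agent.Lib.MP_f02ea4_nt.AE (Vs hv DD nn_le_log log_ge_one col_le)

/-- the final numbers -/
lemma core_numbers (C CP CF : ℕ) (hCP1 : 1 ≤ CP) (hCF1 : 1 ≤ CF) (hC : 100000 * (CP + CF) ≤ C)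
    (L lz a b t m j k n M : ℝ) (hL : 128 ≤ L) (hlz : 0 ≤ lz) (ha : 1 ≤ a) (hb : 0 ≤ b)
    (ht : t = 2 * (m + 1)) (hm : 0 ≤ m) (hj : 0 ≤ j) (hk : 0 ≤ k) (hn0 : 0 ≤ n) (hM : M = L / 8)
    (hn : n ≤ 1 + 4 * log (1 + k / M)) (q : ℝ) (hq0 : 0 ≤ q) (hq3 : q ≤ 3)
    (hfin : L ≤ 3 * (j + m) + 2 * ((CP * log (CP * (1 + L + lz))) *
      ((4 * t * a + j) * n + (2 * t * b) / M * q)) + 4 * log (k + 1) +
      2 * log (CF * (1 + L + lz))) :
    L ≤ C * log (C * (1 + L + lz)) * ((m + 1) * ((1 + log (1 + k / (1 + L))) * a + b / (1 + L)) +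
      j * (1 + log (1 + k / (1 + L)))) := by
  set lam : ℝ := 1 + L with hlam
  set ell : ℝ := 1 + log (1 + k / lam) with hell
  have hlam0 : 0 < lam := by linarith
  have hM0 : 0 < M := by rw [hM]; linarith
  have hkl : 0 ≤ k / lam := div_nonneg hk hlam0.le
  have hll : 0 ≤ log (1 + k / lam) := Real.log_nonneg (by linarith)
  have hell1 : 1 ≤ ell := by linarith
  have hCPR : (1 : ℝ) ≤ CP := by exact_mod_cast hCP1
  have hCFR : (1 : ℝ) ≤ CF := by exact_mod_cast hCF1
  have hCR : 100000 * ((CP : ℝ) + CF) ≤ C := by exact_mod_cast hC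
  have hC0 : (0 : ℝ) < C := by linarith
  set Lam : ℝ := lam + lz with hLam
  have hLam1 : 129 ≤ Lam := by linarith
  set G : ℝ := log (C * Lam) with hG
  have hG1 : 1 ≤ G := by
    rw [hG, Real.le_log_iff_exp_le (by positivity)]
    have h1 := Real.exp_one_lt_d9
    nlinarith
  have hGP : log (CP * Lam) ≤ G := by
    apply Real.log_le_log (by positivity)
    apply mul_le_mul_of_nonneg_right _ (by linarith)
    linarith
  have hGP0 : 0 ≤ log ((CP : ℝ) * Lam) := Real.log_nonneg (by nlinarith)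
  have hGF : log (CF * Lam) ≤ G := by
    apply Real.log_le_log (by positivity)
    apply mul_le_mul_of_nonneg_right _ (by linarith)
    linarith
  have hGlam : log lam ≤ G := by
    apply Real.log_le_log hlam0
    nlinarith
  -- b / M
  have hML : lam ≤ 16 * M := by rw [hM]; linarith
  have hbM : b / M ≤ 16 * (b / lam) := by
    rw [mul_div_assoc', div_le_div_iff₀ hM0 hlam0]
    nlinarith
  have hbl0 : 0 ≤ b / lam := div_nonneg hb hlam0.le
  -- n
  have hkM : k / M ≤ 16 * (k / lam) := by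
    rw [mul_div_assoc', div_le_div_iff₀ hM0 hlam0]
    nlinarith
  have hn13 : n ≤ 13 * ell := by
    have h0 : 0 ≤ k / M := div_nonneg hk hM0.le
    have h1 : log (1 + k / M) ≤ log (16 * (1 + k / lam)) := by
      apply Real.log_le_log (by linarith)
      linarith
    rw [Real.log_mul (by norm_num) (by linarith)] at h1
    have h2 : log (16 : ℝ) ≤ 3 := by
      have h3 : log (16 : ℝ) = 4 * log 2 := by
        have h4 : log ((2 : ℝ) ^ 4) = 4 * log 2 := by rw [Real.log_pow]; norm_num
        rw [← h4]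
        norm_num
      have := Real.log_two_lt_d9
      linarith
    linarith
  -- log (k + 1)
  have hk1 : log (k + 1) ≤ ell + G := by
    have h1 : k + 1 ≤ (1 + k / lam) * lam := by
      rw [add_mul, div_mul_cancel₀ _ hlam0.ne']
      linarith
    have h2 := Real.log_le_log (by linarith) h1
    rw [Real.log_mul (by linarith) hlam0.ne'] at h2
    linarith
  -- S
  set S : ℝ := (m + 1) * (ell * a + b / lam) + j * ell with hS
  have hS1 : ell ≤ S := by
    have h1 : ell ≤ ell * a := le_mul_of_one_le_right (by linarith) ha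
    have h2 : ell * a + b / lam ≤ (m + 1) * (ell * a + b / lam) :=
      le_mul_of_one_le_left (by positivity) (by linarith)
    have h3 : 0 ≤ j * ell := by positivity
    linarith
  have hSjm : j + m ≤ S := by
    have h1 : j ≤ j * ell := le_mul_of_one_le_right hj hell1
    have h2 : 1 ≤ ell * a + b / lam := by
      have : 1 ≤ ell * a := by nlinarith
      linarith
    have h3 : m + 1 ≤ (m + 1) * (ell * a + b / lam) :=
      le_mul_of_one_le_right (by linarith) h2
    linarith
  have hmid : (4 * t * a + j) * n + (2 * t * b) / M * q ≤ 200 * S := by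
    have h1 : (4 * t * a + j) * n ≤ (8 * (m + 1) * a + j) * (13 * ell) := by
      rw [ht]
      have h2 : 4 * (2 * (m + 1)) * a + j = 8 * (m + 1) * a + j := by ring
      rw [h2]
      apply mul_le_mul_of_nonneg_left hn13 (by positivity)
    have h3 : (2 * t * b) / M * q ≤ 192 * ((m + 1) * (b / lam)) := by
      have h4 : (2 * t * b) / M = 4 * (m + 1) * (b / M) := by
        rw [ht]
        ring
      rw [h4]
      have h5 : 4 * (m + 1) * (b / M) ≤ 4 * (m + 1) * (16 * (b / lam)) :=
        mul_le_mul_of_nonneg_left hbM (by linarith)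
      have h6 : 0 ≤ 4 * (m + 1) * (16 * (b / lam)) := by positivity
      have h7 : 0 ≤ 4 * (m + 1) * (b / M) := by
        have : 0 ≤ b / M := div_nonneg hb hM0.le
        positivity
      calc 4 * (m + 1) * (b / M) * q ≤ 4 * (m + 1) * (b / M) * 3 :=
            mul_le_mul_of_nonneg_left hq3 h7
        _ ≤ 4 * (m + 1) * (16 * (b / lam)) * 3 := by linarith
        _ = 192 * ((m + 1) * (b / lam)) := by ring
    have h8 : (8 * (m + 1) * a + j) * (13 * ell) = 104 * ((m + 1) * (ell * a)) + 13 * (j * ell) := by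
      ring
    have h9 : S = (m + 1) * (ell * a) + (m + 1) * (b / lam) + j * ell := by
      rw [hS]
      ring
    have h10 : 0 ≤ (m + 1) * (ell * a) := by positivity
    have h11 : 0 ≤ (m + 1) * (b / lam) := by positivity
    have h12 : 0 ≤ j * ell := by positivity
    rw [h9]
    linarith
  have hmid0 : 0 ≤ (4 * t * a + j) * n + (2 * t * b) / M * q := by
    rw [ht]
    positivity
  have hS0 : 0 ≤ S := by linarith
  have hSG : S ≤ G * S := le_mul_of_one_le_left hS0 hG1
  have hGS : G ≤ G * S := le_mul_of_one_le_right (by linarith) (by linarith)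
  have hPhi : (CP * log (CP * Lam)) * ((4 * t * a + j) * n + (2 * t * b) / M * q) ≤
      200 * CP * (G * S) := by
    calc (CP * log (CP * Lam)) * ((4 * t * a + j) * n + (2 * t * b) / M * q) ≤
          (CP * G) * (200 * S) := by
          apply mul_le_mul _ hmid hmid0 (by positivity)
          exact mul_le_mul_of_nonneg_left hGP (by linarith)
      _ = 200 * CP * (G * S) := by ring
  have hGS0 : 0 ≤ G * S := by positivity
  have hfinal : L ≤ 3 * S + 2 * (200 * CP * (G * S)) + 4 * (S + G) + 2 * G := by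
    linarith
  calc L ≤ 3 * S + 2 * (200 * CP * (G * S)) + 4 * (S + G) + 2 * G := hfinal
    _ ≤ (400 * CP + 13) * (G * S) := by linarith
    _ ≤ C * (G * S) := by
        apply mul_le_mul_of_nonneg_right _ hGS0
        linarith
    _ = C * G * S := by ring

/-- THE CORE BOUND -/
theorem core4 : ∃ C : ℕ, 1 ≤ C ∧ ∀ (N y z : ℕ) (a b : ℝ), Odd N → Nat.Perfect N → 3 ≤ y → y ≤ z →
    1 ≤ a → 0 ≤ b → log y ≤ (1 + log (log N)) ^ 3 →
    (∀ U ⊆ Vs N y, ∑ r ∈ U, (1 + 16 * (log (r : ℝ) / (1 + log (log N)))) ≤ a * U.card + b) →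
    log (log N) ≤ C * log (C * (1 + log (log N) + log z)) *
      ((((Lg N z).card : ℝ) + 1) * ((1 + log (1 + ((Vs N y).card : ℝ) / (1 + log (log N)))) * a +
        b / (1 + log (log N))) +
        (Md N y z).card * (1 + log (1 + ((Vs N y).card : ℝ) / (1 + log (log N))))) := by
  classical
  obtain ⟨X0, hX03, hX0⟩ := heavy_count3
  obtain ⟨CP, hCP1, hCP⟩ := params
  obtain ⟨CF, hCF1, hCF⟩ := num_final
  refine ⟨100000 * (CP + CF) + ⌈X0⌉₊, by omega, ?_⟩
  intro N y z a b hodd hN hy hyz ha hb hylog hab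
  obtain ⟨hX1, hlogN, hom, hom1⟩ := basics N hodd hN
  set C : ℕ := 100000 * (CP + CF) + ⌈X0⌉₊ with hC
  set X : ℝ := log (N : ℝ) with hX
  set L : ℝ := log X with hL
  set k := (Vs N y).card with hk
  set j := (Md N y z).card with hj
  set m := (Lg N z).card with hm
  have hyR : (3 : ℝ) ≤ y := by exact_mod_cast hy
  have hzR : (3 : ℝ) ≤ z := by exact_mod_cast hy.trans hyz
  have hlogz1 : 1 ≤ log (z : ℝ) := d15_log3 hzR
  have hlogy1 : 1 ≤ log (y : ℝ) := d15_log3 hyR
  have hlogyz : log (y : ℝ) ≤ log z := Real.log_le_log (by linarith) (by exact_mod_cast hyz)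
  have hL0 : 0 ≤ L := Real.log_nonneg hX1
  have hCR : (C : ℝ) = 100000 * (CP + CF) + ⌈X0⌉₊ := by rw [hC]; push_cast; ring
  have hCPR : (1 : ℝ) ≤ CP := by exact_mod_cast hCP1
  have hCFR : (1 : ℝ) ≤ CF := by exact_mod_cast hCF1
  have hX0c : X0 ≤ (⌈X0⌉₊ : ℝ) := Nat.le_ceil X0
  set lam : ℝ := 1 + L with hlam
  have hlam0 : 0 < lam := by linarith
  have hkl : 0 ≤ (k : ℝ) / lam := by positivity
  have hll : 0 ≤ log (1 + (k : ℝ) / lam) := Real.log_nonneg (by linarith)
  set ell : ℝ := 1 + log (1 + (k : ℝ) / lam) with hell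
  have hell1 : 1 ≤ ell := by linarith
  have hbl : 0 ≤ b / lam := by positivity
  set S : ℝ := ((m : ℝ) + 1) * (ell * a + b / lam) + j * ell with hS
  have hj0 : (0 : ℝ) ≤ j := Nat.cast_nonneg _
  have hm0 : (0 : ℝ) ≤ m := Nat.cast_nonneg _
  have hk0 : (0 : ℝ) ≤ k := Nat.cast_nonneg _
  have hSa : ((m : ℝ) + 1) * (a + b / lam) + j ≤ S := by
    have h1 : a ≤ ell * a := le_mul_of_one_le_left (by linarith) hell1
    have h2 : (j : ℝ) ≤ j * ell := le_mul_of_one_le_right hj0 hell1
    have h3 : ((m : ℝ) + 1) * (a + b / lam) ≤ ((m : ℝ) + 1) * (ell * a + b / lam) :=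
      mul_le_mul_of_nonneg_left (by linarith) (by linarith)
    linarith
  have hS1 : 1 ≤ S := by
    have h3 : 1 ≤ ((m : ℝ) + 1) * (a + b / lam) := by nlinarith
    linarith
  set G : ℝ := log ((C : ℝ) * (lam + log z)) with hG
  have hG1 : 1 ≤ G := by
    rw [hG, Real.le_log_iff_exp_le (by nlinarith)]
    have h1 := Real.exp_one_lt_d9
    nlinarith
  have hCS : ∀ x : ℝ, x ≤ C * S → x ≤ C * G * S := by
    intro x hx
    have h1 : (C : ℝ) * S ≤ C * S * G := le_mul_of_one_le_right (by nlinarith) hG1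
    linarith
  by_cases hc0 : X < X0
  · apply hCS
    have h1 : L ≤ X := by
      have := Real.log_le_sub_one_of_pos (by linarith : 0 < X)
      linarith
    nlinarith
  rw [not_lt] at hc0
  by_cases hc1 : L < 128
  · apply hCS
    nlinarith
  rw [not_lt] at hc1
  set M : ℝ := L / 8 with hM
  have hM0 : 0 < M := by linarith
  set t : ℕ := 2 * (m + 1) with ht
  have htR : (t : ℝ) = 2 * (m + 1) := by rw [ht]; push_cast; ring
  by_cases hc2 : L / 256 < (t : ℝ) * (⌈2 * (a + b / M)⌉₊ + 1) + j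
  · apply hCS
    have hbM0 : 0 ≤ b / M := by positivity
    have h1 : (⌈2 * (a + b / M)⌉₊ : ℝ) ≤ 2 * (a + b / M) + 1 :=
      (Nat.ceil_lt_add_one (by linarith)).le
    have hbM : b / M ≤ 16 * (b / lam) := by
      rw [mul_div_assoc', div_le_div_iff₀ hM0 hlam0]
      have : lam ≤ 16 * M := by rw [hM]; linarith
      nlinarith
    have h2 : (⌈2 * (a + b / M)⌉₊ : ℝ) + 1 ≤ 32 * (a + b / lam) := by linarith
    have h3 : (t : ℝ) * (⌈2 * (a + b / M)⌉₊ + 1) ≤ 64 * ((m + 1) * (a + b / lam)) := by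
      rw [htR]
      calc 2 * ((m : ℝ) + 1) * ((⌈2 * (a + b / M)⌉₊ : ℝ) + 1) ≤
            2 * ((m : ℝ) + 1) * (32 * (a + b / lam)) :=
            mul_le_mul_of_nonneg_left h2 (by linarith)
        _ = 64 * ((m + 1) * (a + b / lam)) := by ring
    have h4 : L ≤ 20000 * S := by
      have h5 : 0 ≤ ((m : ℝ) + 1) * (a + b / lam) := by positivity
      linarith
    refine h4.trans ?_
    apply mul_le_mul_of_nonneg_right _ (by linarith)
    rw [hCR]
    have : (0 : ℝ) ≤ (⌈X0⌉₊ : ℝ) := Nat.cast_nonneg _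
    linarith
  rw [not_lt] at hc2
  -- the main case
  set V : ℕ := Nat.log 2 N + 1 with hV
  have hVpos : 1 ≤ V := by omega
  have hkX : (k : ℝ) ≤ X := by
    refine le_trans ?_ hom
    exact_mod_cast Finset.card_filter_le _ _
  set T : ℝ := X ^ (1 / 4 : ℝ) * log y with hT
  set E : ℕ := ⌈log (z : ℝ)⌉₊ + 1 with hE
  set l : ℝ := ((k : ℝ) + 1) * T + 2 * log y + log (V : ℝ) + 2 + E with hl
  have hI : ∀ r ∈ Vs N y, (((Vs N y).filter (fun q => hv N T q r)).card : ℝ) ≤
      1 + 16 * (log (r : ℝ) / lam) := by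
    intro r hr
    rw [Finset.mem_filter] at hr
    refine hX0 X y r _ hc0 hylog (s_prime hr.1) hr.2 ?_ ?_
    · intro q hq
      rw [Finset.mem_filter, Finset.mem_filter] at hq
      exact ⟨s_prime hq.1.1, hq.1.2⟩
    · intro q hq
      rw [Finset.mem_filter, Finset.mem_filter] at hq
      have h1 : T < bb N q r := hq.2
      have h2 : bb N q r ≤ ((q ^ (r - 1) - 1).factorization r : ℝ) * log r := by
        unfold bb
        split_ifs
        · exact le_rfl
        · exact mul_nonneg (Nat.cast_nonneg _) (log_natCast_nonneg r)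
      exact h1.trans_le h2
  obtain ⟨n, hn1, hn2⟩ := levels_number M k hM0 hk0
  obtain ⟨U, hUV, hUc, hUm⟩ := iterate (V := Vs N y)
    (fun U => ∑ q ∈ Vs N y \ U, (nn N q : ℝ) * log q + (Vs N y).card * l) M
    (CP * log (CP * (1 + log (log N) + log z))) (4 * t * a + (Md N y z).card) (2 * t * b) hM0
    (fun s hs U hUV hUs => opn_step hCP N y z hodd hN hy hyz a b T l ha hb hT
      (fun r => 1 + 16 * (log (r : ℝ) / lam)) hI hab M hM E hE hl hc1 t ht hc2 s hs U hUV hUs)
    n (Vs N y) (Subset.refl _) hn1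
  simp only [Finset.sdiff_self, Finset.sum_empty, zero_add] at hUm
  set q : ℝ := 3 * (1 - (3 / 4 : ℝ) ^ n) with hq
  have hp0 : (0 : ℝ) ≤ (3 / 4 : ℝ) ^ n := by positivity
  have hp1 : ((3 / 4 : ℝ)) ^ n ≤ 1 := pow_le_one₀ (by norm_num) (by norm_num)
  have hq0 : 0 ≤ q := by rw [hq]; linarith
  have hq3 : q ≤ 3 := by rw [hq]; linarith
  have hcardj : (Lg N y).card = j + m := by
    have h1 : Lg N y = Md N y z ∪ Lg N z := by
      ext p
      simp only [Finset.mem_filter, Finset.mem_union]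
      constructor
      · rintro ⟨h1, h2⟩
        rcases Nat.lt_or_ge z p with h3 | h3
        · exact Or.inr ⟨h1, h3⟩
        · exact Or.inl ⟨h1, h2, h3⟩
      · rintro (⟨h1, h2, -⟩ | ⟨h1, h2⟩)
        · exact ⟨h1, h2⟩
        · exact ⟨h1, hyz.trans_lt h2⟩
    rw [h1, Finset.card_union_of_disjoint]
    rw [Finset.disjoint_left]
    intro p hp hp'
    have h2 := (Finset.mem_filter.1 hp).2.2
    have h3 := (Finset.mem_filter.1 hp').2
    omega
  have hcards : N.primeFactors.card = k + (j + m) := by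
    have h1 : (Vs N y).card + (N.primeFactors.filter (fun p => ¬ p ≤ y)).card =
        N.primeFactors.card := Finset.card_filter_add_card_filter_not _
    have h2 : N.primeFactors.filter (fun p => ¬ p ≤ y) = Lg N y := by
      apply Finset.filter_congr
      intro p _
      exact not_le
    rw [h2] at h1
    omega
  have hproc := process N hodd hN (Vs N y) (Vs N y \ U) (Finset.filter_subset _ _)
    Finset.sdiff_subset (2 * (j + m) + U.card) (by
      rw [hcards, Finset.card_sdiff_of_subset hUV]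
      have := Finset.card_le_card hUV
      omega)
  have hκ0 : 0 ≤ (CP : ℝ) * log (CP * (1 + log (log N) + log z)) := by
    apply mul_nonneg (by linarith)
    apply Real.log_nonneg
    have : 1 ≤ 1 + log (log (N : ℝ)) + log z := by
      change 1 ≤ 1 + L + log (z : ℝ)
      linarith
    nlinarith
  set Φ : ℝ := (CP * log (CP * (1 + log (log N) + log z))) *
    ((4 * t * a + (Md N y z).card) * n + (2 * t * b) / M * q) with hΦ
  have hΦ0 : 0 ≤ Φ := by
    rw [hΦ]
    apply mul_nonneg hκ0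
    have : 0 ≤ (2 * t * b) / M * q := by positivity
    have h2 : 0 ≤ (4 * t * a + ((Md N y z).card : ℝ)) * n := by positivity
    linarith
  have hl0 : 0 ≤ l := by
    have hT0 : 0 ≤ T := by positivity
    have h2 : 0 ≤ log (V : ℝ) := log_natCast_nonneg V
    have h3 : 0 ≤ ((k : ℝ) + 1) * T := by positivity
    have h4 : (0 : ℝ) ≤ E := Nat.cast_nonneg _
    rw [hl]
    linarith
  have hHH : HH N (Vs N y) (Vs N y \ U) ≤ k * log y + exp Φ * (k * l) := by
    unfold HH
    have h1 : ∑ p ∈ Vs N y, log (p : ℝ) ≤ k * log y := by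
      rw [hk, ← nsmul_eq_mul]
      apply Finset.sum_le_card_nsmul
      intro p hp
      have hpm := Finset.mem_filter.1 hp
      exact Real.log_le_log (by exact_mod_cast (s_prime hpm.1).pos) (by exact_mod_cast hpm.2)
    have h2 : 0 ≤ ((Vs N y).card : ℝ) * l := by positivity
    have h3 : ((Vs N y).card : ℝ) * l = k * l := rfl
    rw [h3] at h2 hUm
    linarith
  have hlog4 : log (4 * (N.primeFactors.card : ℝ)) ≤ log (4 * X) := by
    apply Real.log_le_log
    · have : (0 : ℝ) < N.primeFactors.card := by exact_mod_cast hom1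
      positivity
    · linarith
  have hmain : X ≤ 2 ^ (2 * (j + m) + U.card) *
      (k * log y + exp Φ * (k * l) + log (4 * X)) := by
    refine hproc.trans ?_
    apply mul_le_mul_of_nonneg_left _ (by positivity)
    linarith
  have hres := hCF X (log z) Φ y j m k V E U.card hX1 (by omega) hlogyz hVpos hlogN hkX hE hΦ0
    hUc hmain
  exact core_numbers C CP CF hCP1 hCF1 (by rw [hC]; omega) L (log z) a b t m j k n M hc1
    (by linarith) ha hb htR hm0 hj0 hk0 (Nat.cast_nonneg _) hM hn2 q hq0 hq3 hres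

end Pool.Agent.Lib.MP_f02ea4_nt.AG
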