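import Mathlib
import Pool.Agent.Lib.MP_f02ea4_nt.AG.Core2

/-! The inequality with two parameters. -/

set_option autoImplicit false

namespace Pool.Agent.Lib.MP_f02ea4_nt.AG

open Finset Real
open Pool.Agent.Lib.MP_f02ea4_nt.Sm
open Pool.Agent.Lib.MP_f02ea4_nt.Ml (Lg s_prime basics large_X)
open Pool.Agent.Lib.MP_f02ea4_nt.AE (Vs)

/-- the logarithmic size of the part of the radical below `y` -/
noncomputable abbrev Ry (N y : ℕ) : ℝ := ∑ p ∈ Vs N y, log (p : ℝ)

/-- uniform version -/
lemma two_U : ∃ C N0 : ℕ, 1 ≤ C ∧ ∀ N y z : ℕ, N0 ≤ N → Odd N → Nat.Perfect N → 3 ≤ y → y ≤ z →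
    log (log N) ^ 2 ≤ C * log (log (log N) + log z) *
      ((((Lg N z).card : ℝ) + 1) * (log (log N) * (1 + log (1 + ((Vs N y).card : ℝ) / log (log N))) +
        (1 + log (1 + ((Vs N y).card : ℝ) / log (log N))) * log y) +
        (Md N y z).card * (log (log N) * (1 + log (1 + ((Vs N y).card : ℝ) / log (log N))))) := by
  obtain ⟨C, hC1, hC⟩ := core4
  have hC1R : (1 : ℝ) ≤ C := by exact_mod_cast hC1
  obtain ⟨X0, hX01, hX0⟩ := large_X 1 (2 * C + 3) (by norm_num)
  refine ⟨32 * C, ⌈exp (max X0 3)⌉₊, by omega, ?_⟩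
  intro N y z hNN hodd hperf hy hyz
  have h1 : exp (max X0 3) ≤ (N : ℝ) := Nat.ceil_le.1 hNN
  have hN0 : (0 : ℝ) < N := lt_of_lt_of_le (exp_pos _) h1
  have h2 : max X0 3 ≤ log (N : ℝ) := (le_log_iff_exp_le hN0).2 h1
  set X := log (N : ℝ) with hX
  have h3 : X0 ≤ X := (le_max_left _ _).trans h2
  obtain ⟨hL3, -, -⟩ := hX0 X h3
  rw [one_mul] at hL3
  set L := log X with hL
  set lam : ℝ := 1 + L with hlam
  have hyR : (3 : ℝ) ≤ y := by exact_mod_cast hy
  have hzR : (3 : ℝ) ≤ z := by exact_mod_cast hy.trans hyz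
  have hlogz1 : 1 ≤ log (z : ℝ) := d15_log3 hzR
  have hlogy1 : 1 ≤ log (y : ℝ) := d15_log3 hyR
  set k := (Vs N y).card with hk
  set j := (Md N y z).card with hj
  set m := (Lg N z).card with hm
  have hL0 : 0 < L := by linarith
  have hlam0 : 0 < lam := by linarith
  have hkl : (k : ℝ) / lam ≤ k / L := div_le_div_of_nonneg_left (Nat.cast_nonneg _) hL0 (by linarith)
  have hkl0 : 0 ≤ (k : ℝ) / lam := by positivity
  set ell : ℝ := 1 + log (1 + (k : ℝ) / L) with hell
  set ell' : ℝ := 1 + log (1 + (k : ℝ) / lam) with hell'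
  have hell1 : 1 ≤ ell' := by
    have : 0 ≤ log (1 + (k : ℝ) / lam) := Real.log_nonneg (by linarith)
    linarith
  have hellle : ell' ≤ ell := by
    have : log (1 + (k : ℝ) / lam) ≤ log (1 + (k : ℝ) / L) :=
      Real.log_le_log (by linarith) (by linarith)
    linarith
  have hell0 : 0 < ell := by linarith
  have hell0' : 0 < ell' := by linarith
  set G : ℝ := log (L + log z) with hG
  have hG1 : 1 ≤ G := by
    rw [hG]
    apply d15_log3
    linarith
  have hG2 : log (C * (lam + log z)) ≤ 2 * G := by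
    have h5 : (C : ℝ) * (lam + log z) ≤ (2 * C) * (L + log z) := by nlinarith
    have h6 := Real.log_le_log (by positivity) h5
    rw [Real.log_mul (x := 2 * (C : ℝ)) (by positivity) (by positivity)] at h6
    have h7 : log (2 * (C : ℝ)) ≤ G := Real.log_le_log (by positivity) (by linarith)
    linarith
  have hj0 : (0 : ℝ) ≤ j := Nat.cast_nonneg _
  have hm0 : (0 : ℝ) ≤ m := Nat.cast_nonneg _
  have hC32 : ((32 * C : ℕ) : ℝ) = 32 * C := by push_cast; ring
  rw [hC32]
  by_cases hcase : lam ^ 3 < log (y : ℝ)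
  · -- trivial case
    have h5 : L ^ 2 ≤ lam ^ 3 := by
      have : L ^ 2 ≤ lam ^ 2 := by nlinarith
      have h6 : lam ^ 2 * 1 ≤ lam ^ 2 * lam := by
        apply mul_le_mul_of_nonneg_left _ (by positivity)
        linarith
      nlinarith
    have h7 : log (y : ℝ) ≤ ((m : ℝ) + 1) * (L * ell + ell * log y) + j * (L * ell) := by
      have h8 : log (y : ℝ) ≤ ell * log y := le_mul_of_one_le_left (by linarith) (by linarith)
      have h9 : 0 ≤ L * ell := by positivity
      have h10 : L * ell + ell * log y ≤ ((m : ℝ) + 1) * (L * ell + ell * log y) :=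
        le_mul_of_one_le_left (by linarith) (by linarith)
      have h11 : 0 ≤ (j : ℝ) * (L * ell) := by positivity
      linarith
    have h8 : (0 : ℝ) ≤ ((m : ℝ) + 1) * (L * ell + ell * log y) + j * (L * ell) := by linarith
    calc L ^ 2 ≤ ((m : ℝ) + 1) * (L * ell + ell * log y) + j * (L * ell) := by linarith
      _ ≤ 32 * C * G * (((m : ℝ) + 1) * (L * ell + ell * log y) + j * (L * ell)) := by
          apply le_mul_of_one_le_left h8
          nlinarith
  rw [not_lt] at hcase
  have ha : 1 ≤ 1 + 16 * (log (y : ℝ) / lam) := by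
    have : 0 ≤ log (y : ℝ) / lam := by positivity
    linarith
  have hmain := hC N y z (1 + 16 * (log (y : ℝ) / lam)) 0 hodd hperf hy hyz ha le_rfl hcase (by
    intro U hU
    rw [add_zero]
    have h5 : ∀ r ∈ U, 1 + 16 * (log (r : ℝ) / (1 + log (log (N : ℝ)))) ≤
        1 + 16 * (log (y : ℝ) / lam) := by
      intro r hr
      have h6 := Finset.mem_filter.1 (hU hr)
      have h7 : log (r : ℝ) ≤ log y :=
        Real.log_le_log (by exact_mod_cast (s_prime h6.1).pos) (by exact_mod_cast h6.2)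
      have h8 : log (r : ℝ) / lam ≤ log y / lam := div_le_div_of_nonneg_right h7 hlam0.le
      change 1 + 16 * (log (r : ℝ) / lam) ≤ _
      linarith
    refine (Finset.sum_le_card_nsmul _ _ _ h5).trans (le_of_eq ?_)
    rw [nsmul_eq_mul]
    ring)
  have hmain' : L ≤ C * log (C * (lam + log z)) * (((m : ℝ) + 1) *
      (ell' * (1 + 16 * (log (y : ℝ) / lam)) + 0 / lam) + j * ell') := hmain
  rw [zero_div, add_zero] at hmain'
  have h5 : ((m : ℝ) + 1) * (ell' * (1 + 16 * (log (y : ℝ) / lam))) + j * ell' ≤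
      ((m : ℝ) + 1) * (ell * (1 + 16 * (log (y : ℝ) / L))) + j * ell := by
    have h6 : log (y : ℝ) / lam ≤ log y / L :=
      div_le_div_of_nonneg_left (by linarith) hL0 (by linarith)
    have h7 : ell' * (1 + 16 * (log (y : ℝ) / lam)) ≤ ell * (1 + 16 * (log (y : ℝ) / L)) :=
      mul_le_mul hellle (by linarith) (by linarith) (by linarith)
    have h8 := mul_le_mul_of_nonneg_left h7 (by linarith : 0 ≤ (m : ℝ) + 1)
    have h9 := mul_le_mul_of_nonneg_left hellle hj0
    linarith
  have h5' : 0 ≤ ((m : ℝ) + 1) * (ell' * (1 + 16 * (log (y : ℝ) / lam))) + j * ell' := by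
    have : 0 ≤ 1 + 16 * (log (y : ℝ) / lam) := by linarith
    positivity
  have h6 : L ≤ C * (2 * G) * (((m : ℝ) + 1) * (ell * (1 + 16 * (log (y : ℝ) / L))) + j * ell) := by
    refine hmain'.trans ?_
    apply mul_le_mul _ h5 h5' (by positivity)
    exact mul_le_mul_of_nonneg_left hG2 (by linarith)
  have h7 := mul_le_mul_of_nonneg_left h6 hL0.le
  have h8 : L * (C * (2 * G) * (((m : ℝ) + 1) * (ell * (1 + 16 * (log (y : ℝ) / L))) + j * ell)) =
      2 * C * G * (((m : ℝ) + 1) * (L * ell + 16 * (ell * log y)) + j * (L * ell)) := by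
    field_simp
  rw [h8] at h7
  have h9 : ((m : ℝ) + 1) * (L * ell + 16 * (ell * log y)) + j * (L * ell) ≤
      16 * (((m : ℝ) + 1) * (L * ell + ell * log y) + j * (L * ell)) := by
    have h10 : 0 ≤ ((m : ℝ) + 1) * (L * ell) := by positivity
    have h11 : 0 ≤ (j : ℝ) * (L * ell) := by positivity
    nlinarith
  calc L ^ 2 = L * L := sq L
    _ ≤ 2 * C * G * (((m : ℝ) + 1) * (L * ell + 16 * (ell * log y)) + j * (L * ell)) := h7
    _ ≤ 2 * C * G * (16 * (((m : ℝ) + 1) * (L * ell + ell * log y) + j * (L * ell))) :=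
        mul_le_mul_of_nonneg_left h9 (by positivity)
    _ = _ := by ring

/-- the last prime `≤ y` -/
lemma exists_last (N y : ℕ) (hodd : Odd N) (hy : 3 ≤ y) : ∃ y' : ℕ, 3 ≤ y' ∧ y' ≤ y ∧
    Vs N y' = Vs N y ∧ (y' = 3 ∨ log (y' : ℝ) ≤ Ry N y) := by
  rcases (Vs N y).eq_empty_or_nonempty with h | h
  · refine ⟨3, le_rfl, hy, ?_, Or.inl rfl⟩
    rw [h, Finset.eq_empty_iff_forall_notMem]
    intro p hp
    have h1 := Finset.mem_filter.1 hp
    have : p ∈ Vs N y := Finset.mem_filter.2 ⟨h1.1, h1.2.trans hy⟩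
    rw [h] at this
    exact absurd this (Finset.notMem_empty _)
  · set P := (Vs N y).max' h with hP
    have hPm : P ∈ Vs N y := Finset.max'_mem _ _
    have h1 := Finset.mem_filter.1 hPm
    refine ⟨P, ?_, h1.2, ?_, Or.inr ?_⟩
    · have := d15_three_le hodd h1.1
      exact_mod_cast this
    · ext p
      constructor
      · intro hp
        have h2 := Finset.mem_filter.1 hp
        exact Finset.mem_filter.2 ⟨h2.1, h2.2.trans h1.2⟩
      · intro hp
        have h2 := Finset.mem_filter.1 hp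
        exact Finset.mem_filter.2 ⟨h2.1, Finset.le_max' _ _ hp⟩
    · exact Finset.single_le_sum (f := fun p : ℕ => log (p : ℝ))
        (fun p _ => log_natCast_nonneg p) hPm

/-- radical version -/
lemma two_R : ∃ C N0 : ℕ, 1 ≤ C ∧ ∀ N y z : ℕ, N0 ≤ N → Odd N → Nat.Perfect N → 3 ≤ y → y ≤ z →
    log (log N) ^ 2 ≤ C * log (log (log N) + log z) *
      ((((Lg N z).card : ℝ) + 1) * (log (log N) * (1 + log (1 + ((Vs N y).card : ℝ) / log (log N))) +
        Ry N y / log (log N)) +
        (Md N y z).card * (log (log N) * (1 + log (1 + ((Vs N y).card : ℝ) / log (log N))))) := by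
  obtain ⟨C, hC1, hC⟩ := core4
  have hC1R : (1 : ℝ) ≤ C := by exact_mod_cast hC1
  obtain ⟨X0, hX01, hX0⟩ := large_X 1 (2 * C + 3) (by norm_num)
  refine ⟨32 * C, ⌈exp (max X0 3)⌉₊, by omega, ?_⟩
  intro N y z hNN hodd hperf hy hyz
  have h1 : exp (max X0 3) ≤ (N : ℝ) := Nat.ceil_le.1 hNN
  have hN0 : (0 : ℝ) < N := lt_of_lt_of_le (exp_pos _) h1
  have h2 : max X0 3 ≤ log (N : ℝ) := (le_log_iff_exp_le hN0).2 h1
  set X := log (N : ℝ) with hX
  have h3 : X0 ≤ X := (le_max_left _ _).trans h2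
  obtain ⟨hL3, -, -⟩ := hX0 X h3
  rw [one_mul] at hL3
  set L := log X with hL
  set lam : ℝ := 1 + L with hlam
  have hyR : (3 : ℝ) ≤ y := by exact_mod_cast hy
  have hzR : (3 : ℝ) ≤ z := by exact_mod_cast hy.trans hyz
  have hlogz1 : 1 ≤ log (z : ℝ) := d15_log3 hzR
  set k := (Vs N y).card with hk
  set j := (Md N y z).card with hj
  set m := (Lg N z).card with hm
  have hL0 : 0 < L := by linarith
  have hlam0 : 0 < lam := by linarith
  have hkl : (k : ℝ) / lam ≤ k / L := div_le_div_of_nonneg_left (Nat.cast_nonneg _) hL0 (by linarith)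
  have hkl0 : 0 ≤ (k : ℝ) / lam := by positivity
  set ell : ℝ := 1 + log (1 + (k : ℝ) / L) with hell
  set ell' : ℝ := 1 + log (1 + (k : ℝ) / lam) with hell'
  have hell1 : 1 ≤ ell' := by
    have : 0 ≤ log (1 + (k : ℝ) / lam) := Real.log_nonneg (by linarith)
    linarith
  have hellle : ell' ≤ ell := by
    have : log (1 + (k : ℝ) / lam) ≤ log (1 + (k : ℝ) / L) :=
      Real.log_le_log (by linarith) (by linarith)
    linarith
  have hell0 : 0 < ell := by linarith
  have hell0' : 0 < ell' := by linarith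
  set G : ℝ := log (L + log z) with hG
  have hG1 : 1 ≤ G := by
    rw [hG]
    apply d15_log3
    linarith
  have hG2 : log (C * (lam + log z)) ≤ 2 * G := by
    have h5 : (C : ℝ) * (lam + log z) ≤ (2 * C) * (L + log z) := by nlinarith
    have h6 := Real.log_le_log (by positivity) h5
    rw [Real.log_mul (x := 2 * (C : ℝ)) (by positivity) (by positivity)] at h6
    have h7 : log (2 * (C : ℝ)) ≤ G := Real.log_le_log (by positivity) (by linarith)
    linarith
  have hj0 : (0 : ℝ) ≤ j := Nat.cast_nonneg _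
  have hm0 : (0 : ℝ) ≤ m := Nat.cast_nonneg _
  have hC32 : ((32 * C : ℕ) : ℝ) = 32 * C := by push_cast; ring
  rw [hC32]
  set R : ℝ := Ry N y with hR
  have hR0 : 0 ≤ R := Finset.sum_nonneg fun p _ => log_natCast_nonneg p
  have hRL : 0 ≤ R / L := by positivity
  obtain ⟨y', hy'3, hy'y, hVs, hy'⟩ := exists_last N y hodd hy
  have hMd : Md N y' z = Md N y z := by
    ext p
    simp only [Finset.mem_filter]
    constructor
    · rintro ⟨h5, h6, h7⟩
      refine ⟨h5, ?_, h7⟩
      by_contra hc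
      have h8 : p ∈ Vs N y := Finset.mem_filter.2 ⟨h5, not_lt.1 hc⟩
      rw [← hVs] at h8
      have := (Finset.mem_filter.1 h8).2
      omega
    · rintro ⟨h5, h6, h7⟩
      exact ⟨h5, hy'y.trans_lt h6, h7⟩
  by_cases hcase : lam ^ 3 < log (y' : ℝ)
  · -- trivial case
    have hyR' : log (y' : ℝ) ≤ R := by
      rcases hy' with h | h
      · exfalso
        rw [h] at hcase
        have h5 : log ((3 : ℕ) : ℝ) ≤ 3 := by
          push_cast
          have := Real.log_le_sub_one_of_pos (by norm_num : (0 : ℝ) < 3)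
          linarith
        have h6 : (3 : ℝ) ≤ lam := by linarith
        have h7 : lam ≤ lam ^ 3 := by nlinarith [mul_self_nonneg lam]
        linarith
      · exact h
    have h5 : L ^ 3 ≤ lam ^ 3 := pow_le_pow_left₀ hL0.le (by linarith) 3
    have h6 : L ^ 2 ≤ R / L := by
      rw [le_div_iff₀ hL0]
      calc L ^ 2 * L = L ^ 3 := by ring
        _ ≤ R := by linarith
    have h7 : R / L ≤ ((m : ℝ) + 1) * (L * ell + R / L) + j * (L * ell) := by
      have h9 : 0 ≤ L * ell := by positivity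
      have h10 : L * ell + R / L ≤ ((m : ℝ) + 1) * (L * ell + R / L) :=
        le_mul_of_one_le_left (by linarith) (by linarith)
      have h11 : 0 ≤ (j : ℝ) * (L * ell) := by positivity
      linarith
    have h8 : (0 : ℝ) ≤ ((m : ℝ) + 1) * (L * ell + R / L) + j * (L * ell) := by linarith
    calc L ^ 2 ≤ ((m : ℝ) + 1) * (L * ell + R / L) + j * (L * ell) := by linarith
      _ ≤ 32 * C * G * (((m : ℝ) + 1) * (L * ell + R / L) + j * (L * ell)) := by
          apply le_mul_of_one_le_left h8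
          nlinarith
  rw [not_lt] at hcase
  have hb : 0 ≤ 16 * R / lam := by positivity
  have hmain := hC N y' z 1 (16 * R / lam) hodd hperf hy'3 (hy'y.trans hyz) le_rfl hb hcase (by
    intro U hU
    rw [hVs] at hU
    rw [Finset.sum_add_distrib, Finset.sum_const, nsmul_eq_mul, mul_one, one_mul]
    have h5 : ∑ r ∈ U, 16 * (log (r : ℝ) / (1 + log (log (N : ℝ)))) = 16 * (∑ r ∈ U, log (r : ℝ)) / lam := by
      change ∑ r ∈ U, 16 * (log (r : ℝ) / lam) = _
      rw [Finset.mul_sum, Finset.sum_div]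
      exact Finset.sum_congr rfl fun r _ => by ring
    rw [h5]
    have h6 : ∑ r ∈ U, log (r : ℝ) ≤ R :=
      Finset.sum_le_sum_of_subset_of_nonneg hU fun p _ _ => log_natCast_nonneg p
    have h7 : 16 * (∑ r ∈ U, log (r : ℝ)) / lam ≤ 16 * R / lam :=
      div_le_div_of_nonneg_right (by linarith) hlam0.le
    linarith)
  rw [hVs, hMd] at hmain
  have hmain' : L ≤ C * log (C * (lam + log z)) * (((m : ℝ) + 1) *
      (ell' * 1 + (16 * R / lam) / lam) + j * ell') := hmain
  rw [mul_one] at hmain'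
  have h5 : ((m : ℝ) + 1) * (ell' + (16 * R / lam) / lam) + j * ell' ≤
      ((m : ℝ) + 1) * (ell + 16 * (R / L / L)) + j * ell := by
    have h6 : (16 * R / lam) / lam ≤ 16 * (R / L / L) := by
      have e1 : (16 * R / lam) / lam = 16 * (R / lam / lam) := by ring
      rw [e1]
      have h7 : R / lam ≤ R / L := div_le_div_of_nonneg_left hR0 hL0 (by linarith)
      have h8 : R / lam / lam ≤ R / L / L :=
        (div_le_div_of_nonneg_right h7 hlam0.le).trans
          (div_le_div_of_nonneg_left hRL hL0 (by linarith))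
      linarith
    have h8 := mul_le_mul_of_nonneg_left (add_le_add hellle h6) (by linarith : 0 ≤ (m : ℝ) + 1)
    have h9 := mul_le_mul_of_nonneg_left hellle hj0
    linarith
  have h5' : 0 ≤ ((m : ℝ) + 1) * (ell' + (16 * R / lam) / lam) + j * ell' := by
    positivity
  have h6 : L ≤ C * (2 * G) * (((m : ℝ) + 1) * (ell + 16 * (R / L / L)) + j * ell) := by
    refine hmain'.trans ?_
    apply mul_le_mul _ h5 h5' (by positivity)
    exact mul_le_mul_of_nonneg_left hG2 (by linarith)
  have h7 := mul_le_mul_of_nonneg_left h6 hL0.le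
  have h8 : L * (C * (2 * G) * (((m : ℝ) + 1) * (ell + 16 * (R / L / L)) + j * ell)) =
      2 * C * G * (((m : ℝ) + 1) * (L * ell + 16 * (R / L)) + j * (L * ell)) := by
    field_simp
  rw [h8] at h7
  have h9 : ((m : ℝ) + 1) * (L * ell + 16 * (R / L)) + j * (L * ell) ≤
      16 * (((m : ℝ) + 1) * (L * ell + R / L) + j * (L * ell)) := by
    have h10 : 0 ≤ ((m : ℝ) + 1) * (L * ell) := by positivity
    have h11 : 0 ≤ (j : ℝ) * (L * ell) := by positivity
    nlinarith
  calc L ^ 2 = L * L := sq L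
    _ ≤ 2 * C * G * (((m : ℝ) + 1) * (L * ell + 16 * (R / L)) + j * (L * ell)) := h7
    _ ≤ 2 * C * G * (16 * (((m : ℝ) + 1) * (L * ell + R / L) + j * (L * ell))) :=
        mul_le_mul_of_nonneg_left h9 (by positivity)
    _ = _ := by ring

end Pool.Agent.Lib.MP_f02ea4_nt.AG
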