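import Mathlib
import Pool.Agent.Lib.MP_f02ea4_nt.AG.Two

/-! The radical bound. -/

set_option autoImplicit false

namespace Pool.Agent.Lib.MP_f02ea4_nt.AG

open Finset Real
open Pool.Agent.Lib.MP_f02ea4_nt.Sm
open Pool.Agent.Lib.MP_f02ea4_nt.Ml (Lg s_prime basics large_X)
open Pool.Agent.Lib.MP_f02ea4_nt.AE (Vs)

/-- growth: `L ≥ B log L` and friends -/
lemma growth (B : ℝ) (hB : 0 ≤ B) : ∃ L0 : ℝ, 3 ≤ L0 ∧ ∀ L : ℝ, L0 ≤ L →
    1 ≤ log L ∧ B * (4 * log L) ≤ L / (log L) := by
  have h1 : ∃ L1 : ℝ, 3 ≤ L1 ∧ ∀ L : ℝ, L1 ≤ L → log L ^ 2 * (4 * B) ≤ L := by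
    have h2 : Filter.Tendsto (fun x : ℝ => log x ^ 2 / x) Filter.atTop (nhds 0) :=
      Real.isLittleO_pow_log_id_atTop.tendsto_div_nhds_zero
    have h3 : ∀ᶠ x : ℝ in Filter.atTop, log x ^ 2 / x < 1 / (4 * B + 1) := by
      apply (tendsto_order.1 h2).2
      positivity
    obtain ⟨x0, hx0⟩ := Filter.eventually_atTop.1 h3
    refine ⟨max x0 3, le_max_right _ _, fun L hL => ?_⟩
    have h4 := hx0 L ((le_max_left _ _).trans hL)
    have hL0 : 0 < L := by
      have := (le_max_right x0 3).trans hL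
      linarith
    rw [div_lt_div_iff₀ hL0 (by positivity)] at h4
    nlinarith [sq_nonneg (log L)]
  obtain ⟨L1, hL13, hL1⟩ := h1
  refine ⟨L1, hL13, fun L hL => ?_⟩
  have h2 : 1 ≤ log L := d15_log3 (hL13.trans hL)
  refine ⟨h2, ?_⟩
  rw [le_div_iff₀ (by linarith)]
  have := hL1 L hL
  nlinarith

/-- THE RADICAL BOUND -/
theorem radical_bound : ∃ C N0 : ℕ, 1 ≤ C ∧ ∀ N : ℕ, N0 ≤ N → Odd N → Nat.Perfect N →
    log (log N) ^ 3 ≤ C * log ((∏ p ∈ N.primeFactors, p : ℕ) : ℝ) * log (log (log N)) := by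
  obtain ⟨C, N0, hC1, hC⟩ := two_R
  have hC1R : (1 : ℝ) ≤ C := by exact_mod_cast hC1
  obtain ⟨L0, hL03, hL0⟩ := growth (8 * C) (by linarith)
  obtain ⟨X0, hX01, hX0⟩ := large_X 1 L0 (by norm_num)
  refine ⟨8 * C, N0 + ⌈exp (max X0 3)⌉₊, by omega, ?_⟩
  intro N hNN hodd hN
  have h1 : exp (max X0 3) ≤ (N : ℝ) := Nat.ceil_le.1 (by omega)
  have hNpos : (0 : ℝ) < N := lt_of_lt_of_le (exp_pos _) h1
  have h2 : max X0 3 ≤ log (N : ℝ) := (le_log_iff_exp_le hNpos).2 h1
  obtain ⟨hX1, hlogN, hom, hom1⟩ := basics N hodd hN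
  set X := log (N : ℝ) with hX
  have h3 : X0 ≤ X := (le_max_left _ _).trans h2
  obtain ⟨hL3, -, -⟩ := hX0 X h3
  rw [one_mul] at hL3
  set L := log X with hL
  obtain ⟨hlL1, hgr⟩ := hL0 L hL3
  have hL3' : 3 ≤ L := hL03.trans hL3
  have hLpos : 0 < L := by linarith
  set R : ℝ := ∑ p ∈ N.primeFactors, log (p : ℝ) with hR
  have hlogR : log ((∏ p ∈ N.primeFactors, p : ℕ) : ℝ) = R := by
    push_cast
    rw [Real.log_prod]
    intro p hp
    exact_mod_cast (s_prime hp).ne_zero
  rw [hlogR]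
  have hR0 : 0 ≤ R := Finset.sum_nonneg fun p _ => log_natCast_nonneg p
  have hC8 : ((8 * C : ℕ) : ℝ) = 8 * C := by push_cast; ring
  rw [hC8]
  have htriv : L ^ 3 ≤ R → L ^ 3 ≤ 8 * C * R * log L := by
    intro h
    refine h.trans ?_
    have h5 : R ≤ R * log L := le_mul_of_one_le_right hR0 hlL1
    have h6 : R * log L ≤ 8 * C * (R * log L) :=
      le_mul_of_one_le_left (by positivity) (by linarith)
    linarith
  -- the largest prime
  have hne : N.primeFactors.Nonempty := Finset.card_pos.1 (by omega)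
  set P := N.primeFactors.max' hne with hP
  have hPm : P ∈ N.primeFactors := Finset.max'_mem _ _
  have hP3R := d15_three_le hodd hPm
  have hP3 : 3 ≤ P := by exact_mod_cast hP3R
  have hPR : log (P : ℝ) ≤ R := Finset.single_le_sum (f := fun p : ℕ => log (p : ℝ))
        (fun p _ => log_natCast_nonneg p) hPm
  by_cases hc1 : L ^ 3 < log (P : ℝ)
  · exact htriv (hc1.le.trans hPR)
  rw [not_lt] at hc1
  have hall : ∀ p ∈ N.primeFactors, p ≤ P := fun p hp => Finset.le_max' _ _ hp
  have hVs : Vs N P = N.primeFactors := Finset.filter_true_of_mem hall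
  have hLg : Lg N P = ∅ := by
    rw [Finset.eq_empty_iff_forall_notMem]
    intro p hp
    have h5 := Finset.mem_filter.1 hp
    have := hall p h5.1
    omega
  have hMd : Md N P P = ∅ := by
    rw [Finset.eq_empty_iff_forall_notMem]
    intro p hp
    have h5 := Finset.mem_filter.1 hp
    omega
  have hmain := hC N P P (by omega) hodd hN hP3 le_rfl
  rw [hVs, hLg, hMd, Finset.card_empty, Nat.cast_zero, zero_add, one_mul, zero_mul, add_zero] at hmain
  have hRy : Ry N P = R := by
    unfold Ry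
    rw [hVs]
  rw [hRy] at hmain
  set w : ℝ := (N.primeFactors.card : ℝ) with hw
  set ell : ℝ := 1 + log (1 + w / L) with hell
  have hw0 : 0 ≤ w := Nat.cast_nonneg _
  have hwL : 0 ≤ w / L := by positivity
  have hell1 : 1 ≤ ell := by
    have : 0 ≤ log (1 + w / L) := Real.log_nonneg (by linarith)
    linarith
  have hmain' : L ^ 2 ≤ C * log (L + log P) * (L * ell + R / L) := hmain
  have hP0 : 0 ≤ log (P : ℝ) := log_natCast_nonneg P
  have hG : log (L + log P) ≤ 4 * log L := by
    have h5 : L + log P ≤ L ^ 4 := by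
      have h6 : L ≤ L ^ 3 := by nlinarith [mul_self_nonneg L]
      have h7 : 3 * L ^ 3 ≤ L * L ^ 3 := by
        apply mul_le_mul_of_nonneg_right hL3' (by positivity)
      have h8 : L ^ 4 = L * L ^ 3 := by ring
      rw [h8]
      have h9 : 0 ≤ L ^ 3 := by positivity
      linarith
    have h6 := Real.log_le_log (by linarith) h5
    rw [Real.log_pow] at h6
    push_cast at h6
    exact h6
  have hRL : 0 ≤ R / L := by positivity
  have h5 : L ^ 2 ≤ 4 * C * log L * (L * ell + R / L) := by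
    refine hmain'.trans ?_
    apply mul_le_mul_of_nonneg_right _ (by positivity)
    nlinarith
  by_cases hc2 : 4 * C * log L * (L * ell) ≤ L ^ 2 / 2
  · have h6 : L ^ 2 / 2 ≤ 4 * C * log L * (R / L) := by
      have e : 4 * C * log L * (L * ell + R / L) =
        4 * C * log L * (L * ell) + 4 * C * log L * (R / L) := by ring
      rw [e] at h5
      linarith
    have h7 := mul_le_mul_of_nonneg_right h6 hLpos.le
    have e1 : 4 * C * log L * (R / L) * L = 4 * C * R * log L := by field_simp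
    rw [e1] at h7
    have e2 : L ^ 2 / 2 * L = L ^ 3 / 2 := by ring
    rw [e2] at h7
    linarith
  · rw [not_le] at hc2
    apply htriv
    have h6 : L / (8 * C * log L) < ell := by
      rw [div_lt_iff₀ (by positivity)]
      have e1 : 4 * C * log L * (L * ell) = (ell * (8 * C * log L)) * L / 2 := by ring
      rw [e1] at hc2
      nlinarith
    have h7 : 4 * log L ≤ L / (8 * C * log L) := by
      have e1 : L / (8 * C * log L) = L / log L / (8 * C) := by
        field_simp
      rw [e1, le_div_iff₀ (by positivity)]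
      linarith
    have h8 : 3 * log L < log (1 + w / L) := by linarith
    have h9 : log (L ^ 3) < log (1 + w / L) := by
      rw [Real.log_pow]
      push_cast
      exact h8
    have h10 : L ^ 3 < 1 + w / L := (Real.log_lt_log_iff (by positivity) (by linarith)).1 h9
    have h11 : L ^ 3 ≤ w := by
      have h12 : w / L ≤ w / 3 := div_le_div_of_nonneg_left hw0 (by norm_num) hL3'
      have h13 : (27 : ℝ) ≤ L ^ 3 := by nlinarith [mul_self_nonneg (L - 3), mul_self_nonneg L]
      linarith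
    refine h11.trans ?_
    have h12 : w * 1 ≤ R := by
      rw [hw, hR, ← nsmul_eq_mul]
      apply Finset.card_nsmul_le_sum
      intro p hp
      exact d15_log3 (d15_three_le hodd hp)
    linarith

end Pool.Agent.Lib.MP_f02ea4_nt.AG
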