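import Mathlib
import Pool.Agent.Lib.MP_f02ea4_nt.AG.Rad

/-! The final form: the radical bound and the inequality with two parameters, one constant. -/

set_option autoImplicit false

namespace Pool.Agent.Lib.MP_f02ea4_nt.AG

open Finset Real
open Pool.Agent.Lib.MP_f02ea4_nt.Sm
open Pool.Agent.Lib.MP_f02ea4_nt.Ml (Lg s_prime basics large_X)
open Pool.Agent.Lib.MP_f02ea4_nt.AE (Vs)

theorem final_rad : ∃ C : ℕ, 1 ≤ C ∧ ∀ N : ℕ, C ≤ N → Odd N → Nat.Perfect N →
    log (log N) ^ 3 ≤ C * log ((∏ p ∈ N.primeFactors, p : ℕ) : ℝ) * log (log (log N)) ∧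
    ∀ (y z j m : ℕ) (l R : ℝ), 3 ≤ y → y ≤ z →
      l = 1 + log (1 + (N.primeFactors.filter (· ≤ y)).card / log (log N)) →
      R = ∑ p ∈ N.primeFactors.filter (· ≤ y), log (p : ℝ) →
      j = (N.primeFactors.filter (fun p => y < p ∧ p ≤ z)).card →
      m = (N.primeFactors.filter (z < ·)).card →
      log (log N) ^ 2 ≤ C * log (log (log N) + log z) *
        (((m : ℝ) + 1) * (log (log N) * l + min (l * log y) (R / log (log N))) +
          j * (log (log N) * l)) := by
  obtain ⟨C1, N1, hC1, h1⟩ := radical_bound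
  obtain ⟨C2, N2, hC2, h2⟩ := two_U
  obtain ⟨C3, N3, hC3, h3⟩ := two_R
  obtain ⟨X0, hX01, hX0⟩ := large_X 1 3 (by norm_num)
  refine ⟨C1 + C2 + C3 + N1 + N2 + N3 + ⌈exp (max X0 3)⌉₊, by omega, ?_⟩
  intro N hNN hodd hN
  set C : ℕ := C1 + C2 + C3 + N1 + N2 + N3 + ⌈exp (max X0 3)⌉₊ with hC
  have hCN : exp (max X0 3) ≤ (N : ℝ) := Nat.ceil_le.1 (by omega)
  have hNpos : (0 : ℝ) < N := lt_of_lt_of_le (exp_pos _) hCN
  have hX : max X0 3 ≤ log (N : ℝ) := (le_log_iff_exp_le hNpos).2 hCN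
  obtain ⟨hL3, -, -⟩ := hX0 (log (N : ℝ)) ((le_max_left _ _).trans hX)
  rw [one_mul] at hL3
  have hlL : 1 ≤ log (log (log (N : ℝ))) := d15_log3 hL3
  have hC1C : (C1 : ℝ) ≤ C := by exact_mod_cast (by omega : C1 ≤ C)
  have hC2C : (C2 : ℝ) ≤ C := by exact_mod_cast (by omega : C2 ≤ C)
  have hC3C : (C3 : ℝ) ≤ C := by exact_mod_cast (by omega : C3 ≤ C)
  refine ⟨?_, ?_⟩
  · refine (h1 N (by omega) hodd hN).trans ?_
    have h5 : 0 ≤ log ((∏ p ∈ N.primeFactors, p : ℕ) : ℝ) := log_natCast_nonneg _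
    rw [mul_assoc, mul_assoc]
    exact mul_le_mul_of_nonneg_right hC1C (by positivity)
  · intro y z j m l R hy hyz hl hR hj hm
    have hU := h2 N y z (by omega) hodd hN hy hyz
    have hRR := h3 N y z (by omega) hodd hN hy hyz
    have hzR : (3 : ℝ) ≤ z := by exact_mod_cast hy.trans hyz
    have hlogz1 : 1 ≤ log (z : ℝ) := d15_log3 hzR
    have hy0 : 0 ≤ log (y : ℝ) := log_natCast_nonneg y
    set L : ℝ := log (log (N : ℝ)) with hLdef
    have hL0 : 0 < L := by linarith
    have hG1 : 1 ≤ log (L + log z) := d15_log3 (by linarith)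
    have e1 : (Lg N z).card = m := hm.symm
    have e2 : (Md N y z).card = j := hj.symm
    have e3 : 1 + log (1 + ((Vs N y).card : ℝ) / L) = l := hl.symm
    have e4 : Ry N y = R := hR.symm
    rw [e1, e2, e3] at hU
    rw [e1, e2, e3, e4] at hRR
    have hl1 : 1 ≤ l := by
      rw [hl]
      have : 0 ≤ ((N.primeFactors.filter (· ≤ y)).card : ℝ) / L := by positivity
      have := Real.log_nonneg (by linarith :
        (1 : ℝ) ≤ 1 + ((N.primeFactors.filter (· ≤ y)).card : ℝ) / L)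
      linarith
    have hR0 : 0 ≤ R := by
      rw [hR]
      exact Finset.sum_nonneg fun p _ => log_natCast_nonneg p
    rcases min_choice (l * log (y : ℝ)) (R / L) with hmin | hmin
    · rw [hmin]
      refine hU.trans ?_
      rw [mul_assoc, mul_assoc]
      apply mul_le_mul_of_nonneg_right hC2C
      positivity
    · rw [hmin]
      refine hRR.trans ?_
      rw [mul_assoc, mul_assoc]
      apply mul_le_mul_of_nonneg_right hC3C
      positivity

end Pool.Agent.Lib.MP_f02ea4_nt.AG
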