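import Mathlib
import Pool.Agent.Lib.MP_f02ea4_nt.Mg.G028
import Pool.Agent.Lib.MP_f02ea4_nt.AE.Avg
import Pool.Agent.Lib.MP_f02ea4_nt.AE.KForm

/-! Many large primes, the bounds with powers of `log N`: all parts with one constant. -/

set_option autoImplicit false

namespace Pool.Agent.Lib.MP_f02ea4_nt.AG

open Finset Real
open Pool.Agent.Lib.MP_f02ea4_nt.Sm
open Pool.Agent.Lib.MP_f02ea4_nt.Ml (Lg s_prime basics loglog_ge i_loglog_pos final2)
open Pool.Agent.Lib.MP_f02ea4_nt.AE (average k_form)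

lemma mono_nat (a b : ℕ) (hab : a ≤ b) (hb : 12 ≤ b) (u : ℝ) (hu : 1 / 12 ≤ u) (j : ℕ) :
    ((a : ℝ) * u) ^ (a * j) ≤ ((b : ℝ) * u) ^ (b * j) := by
  have hbR : (12 : ℝ) ≤ b := by exact_mod_cast hb
  have habR : (a : ℝ) ≤ b := by exact_mod_cast hab
  have h1 : (1 : ℝ) ≤ b * u := by nlinarith
  exact (pow_le_pow_left₀ (mul_nonneg (Nat.cast_nonneg _) (by linarith))
    (mul_le_mul_of_nonneg_right habR (by linarith)) _).trans
    (pow_le_pow_right₀ h1 (Nat.mul_le_mul_right _ hab))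

/-- all parts with one constant -/
theorem powers (ε : ℝ) (hε : 0 < ε) : ∃ C : ℕ, 1 ≤ C ∧ ∀ N : ℕ, Odd N → Nat.Perfect N →
    (∀ y k j : ℕ, 2 ≤ y → k = (N.primeFactors.filter (· ≤ y)).card + 1 →
      j = (N.primeFactors.filter (y < ·)).card →
      log N ≤ C * (y : ℝ) ^ ε * (C * log (log N)) ^ (C * j) *
        (if j = 0 then (k : ℝ) * (y : ℝ) ^ (1 / 2 : ℝ)
          else if j = 1 then min ((k : ℝ) * y) ((y : ℝ) ^ (3 / 2 : ℝ)) else (k : ℝ) * y)) ∧
    (C ≤ N → log (log N) ≤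
      C * (N.primeFactors.filter (fun p : ℕ => log (N : ℝ) ^ (1 / 2 - ε) < p)).card *
        log (log (log N))) := by
  obtain ⟨C1, h1⟩ := average ε hε
  obtain ⟨C1', hC1'⟩ := exists_nat_ge C1
  obtain ⟨C2, hC2, h2⟩ := k_form ε hε
  obtain ⟨C3, hC3, h3⟩ := final2 ε hε
  obtain ⟨C, hC⟩ : ∃ C : ℕ, C = C1' + C2 + C3 + 12 := ⟨_, rfl⟩
  have hC12 : 12 ≤ C := by omega
  have hCR : (12 : ℝ) ≤ C := by exact_mod_cast hC12
  have hC1C : C1 ≤ C := hC1'.trans (by exact_mod_cast (by omega : C1' ≤ C))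
  have hC2C : (C2 : ℝ) ≤ C := by exact_mod_cast (by omega : C2 ≤ C)
  have hC3C : (C3 : ℝ) ≤ C := by exact_mod_cast (by omega : C3 ≤ C)
  have hC30 : (0 : ℝ) < C3 := by exact_mod_cast hC3
  refine ⟨C, by omega, ?_⟩
  intro N hodd hN
  have hll := i_loglog_pos N hodd hN
  obtain ⟨g1, g2, g3⟩ := h3 N hodd hN
  have hb3 : (1 : ℝ) ≤ (C : ℝ) * log (log (N : ℝ)) := by nlinarith
  refine ⟨?_, ?_⟩
  · intro y k j hy hk hj
    have hy0 : (0 : ℝ) < (y : ℝ) := by exact_mod_cast (by omega : 0 < y)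
    have hy1 : (1 : ℝ) ≤ (y : ℝ) := by exact_mod_cast (by omega : 1 ≤ y)
    have hkR : (k : ℝ) = ((N.primeFactors.filter (· ≤ y)).card : ℝ) + 1 := by
      rw [hk]; push_cast; rfl
    have hk1 : (1 : ℝ) ≤ k := by
      rw [hkR]
      have : (0 : ℝ) ≤ ((N.primeFactors.filter (· ≤ y)).card : ℝ) := Nat.cast_nonneg _
      linarith
    have hpowC : 1 ≤ ((C : ℝ) * log (log (N : ℝ))) ^ (C * j) := one_le_pow₀ hb3
    -- the bound `k y`
    have hky : log (N : ℝ) ≤ C * (y : ℝ) ^ ε * (C * log (log N)) ^ (C * j) * ((k : ℝ) * y) := by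
      have h6 := h2 N y hodd hN hy
      rw [← hj, ← hkR] at h6
      refine h6.trans ?_
      have h7 := mono_nat C2 C (by omega) hC12 _ hll j
      have h8 : (y : ℝ) ^ (1 + ε) = y * (y : ℝ) ^ ε := by
        rw [Real.rpow_add hy0, Real.rpow_one]
      rw [h8]
      have h9 : 0 ≤ (k : ℝ) * (y * (y : ℝ) ^ ε) := by positivity
      have h10 : (C2 : ℝ) * k * (y * (y : ℝ) ^ ε) * ((C2 : ℝ) * log (log N)) ^ (C2 * j) ≤
          (C : ℝ) * k * (y * (y : ℝ) ^ ε) * ((C : ℝ) * log (log N)) ^ (C * j) := by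
        apply mul_le_mul _ h7
          (pow_nonneg (mul_nonneg (Nat.cast_nonneg _) (by linarith)) _) (by positivity)
        have := mul_le_mul_of_nonneg_right hC2C h9
        linarith
      refine h10.trans (le_of_eq ?_)
      ring
    by_cases hj0 : j = 0
    · rw [if_pos hj0]
      have hall : ∀ p ∈ N.primeFactors, p ≤ y := by
        intro p hp
        by_contra hc
        have h6 : p ∈ N.primeFactors.filter (y < ·) := Finset.mem_filter.2 ⟨hp, not_le.1 hc⟩
        have h7 : 0 < (N.primeFactors.filter (y < ·)).card := Finset.card_pos.2 ⟨p, h6⟩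
        omega
      have h6 := h1 N y hodd hN hall
      have h7 : N.primeFactors.filter (· ≤ y) = N.primeFactors :=
        Finset.filter_true_of_mem hall
      rw [h7] at hkR
      have h8 : (N.primeFactors.card : ℝ) ≤ k := by rw [hkR]; linarith
      have h9 : (y : ℝ) ^ (1 / 2 + ε) = (y : ℝ) ^ ε * (y : ℝ) ^ (1 / 2 : ℝ) := by
        rw [← Real.rpow_add hy0, add_comm]
      rw [h9] at h6
      have h10 : (0 : ℝ) ≤ N.primeFactors.card * ((y : ℝ) ^ ε * (y : ℝ) ^ (1 / 2 : ℝ)) := by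
        positivity
      have h11 : (N.primeFactors.card : ℝ) * ((y : ℝ) ^ ε * (y : ℝ) ^ (1 / 2 : ℝ)) ≤
          k * ((y : ℝ) ^ ε * (y : ℝ) ^ (1 / 2 : ℝ)) :=
        mul_le_mul_of_nonneg_right h8 (by positivity)
      have h12 : log (N : ℝ) ≤ C * (k * ((y : ℝ) ^ ε * (y : ℝ) ^ (1 / 2 : ℝ))) :=
        h6.trans ((mul_le_mul_of_nonneg_right hC1C h10).trans
          (mul_le_mul_of_nonneg_left h11 (by linarith)))
      have h13 : 0 ≤ (C : ℝ) * (k * ((y : ℝ) ^ ε * (y : ℝ) ^ (1 / 2 : ℝ))) := by positivity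
      have h14 := mul_le_mul_of_nonneg_left hpowC h13
      rw [mul_one] at h14
      refine (h12.trans h14).trans (le_of_eq ?_)
      ring
    · rw [if_neg hj0]
      by_cases hj1 : j = 1
      · rw [if_pos hj1]
        rcases min_choice ((k : ℝ) * y) ((y : ℝ) ^ (3 / 2 : ℝ)) with hm | hm
        · rw [hm]
          exact hky
        · rw [hm]
          have h6 := g1 y hy
          rw [← hj, if_pos (by omega)] at h6
          refine h6.trans ?_
          have h7 := mono_nat C3 C (by omega) hC12 _ hll j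
          have h8 : (y : ℝ) ^ (3 / 2 + ε) = (y : ℝ) ^ ε * (y : ℝ) ^ (3 / 2 : ℝ) := by
            rw [← Real.rpow_add hy0, add_comm]
          rw [h8]
          have h9 : 0 ≤ (y : ℝ) ^ ε * (y : ℝ) ^ (3 / 2 : ℝ) := by positivity
          have h10 : (C3 : ℝ) * ((y : ℝ) ^ ε * (y : ℝ) ^ (3 / 2 : ℝ)) *
              ((C3 : ℝ) * log (log N)) ^ (C3 * j) ≤
              (C : ℝ) * ((y : ℝ) ^ ε * (y : ℝ) ^ (3 / 2 : ℝ)) *
              ((C : ℝ) * log (log N)) ^ (C * j) := by
            apply mul_le_mul _ h7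
              (pow_nonneg (mul_nonneg (Nat.cast_nonneg _) (by linarith)) _) (by positivity)
            exact mul_le_mul_of_nonneg_right hC3C h9
          refine h10.trans (le_of_eq ?_)
          ring
      · rw [if_neg hj1]
        exact hky
  · intro hCN
    have h6 := g2 (by omega)
    have h7 : 0 < (C3 : ℝ) * (N.primeFactors.filter (fun p : ℕ => log (N : ℝ) ^ (1 / 2 - ε) < p)).card *
        log (log (log (N : ℝ))) := by linarith
    have h8 : 0 ≤ ((N.primeFactors.filter (fun p : ℕ => log (N : ℝ) ^ (1 / 2 - ε) < p)).card : ℝ) *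
        log (log (log (N : ℝ))) := by
      rw [mul_assoc] at h7
      exact ((mul_pos_iff_of_pos_left hC30).1 h7).le
    rw [mul_assoc] at h6 ⊢
    exact h6.trans (mul_le_mul_of_nonneg_right hC3C h8)

end Pool.Agent.Lib.MP_f02ea4_nt.AG
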